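import Pool.Agent.NH24.OL.Stm

/-!
# OL-1: linear independence of the truncated sums over the rational functions (helper72)
-/

set_option autoImplicit false

namespace Pool.Agent.NH24.OL.Ind

open Finset Pool.Agent.Y760.ZG Filter Polynomial

/-- eventually a rational function -/
def Rl (f : ℕ → ℝ) : Prop :=
  ∃ A B : ℝ[X], B ≠ 0 ∧ ∀ᶠ m : ℕ in atTop, f m = A.eval (m : ℝ) / B.eval (m : ℝ)

lemma ev_ne {A : ℝ[X]} (hA : A ≠ 0) : ∀ᶠ m : ℕ in atTop, A.eval (m : ℝ) ≠ 0 := by
  have h1 : Set.Finite {x : ℝ | A.eval x = 0} := by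
    have : {x : ℝ | A.eval x = 0} = {x : ℝ | A.IsRoot x} := rfl
    rw [this]
    exact Polynomial.finite_setOfPred_isRoot hA
  have h2 : Set.Finite ((fun m : ℕ => (m : ℝ)) ⁻¹' {x : ℝ | A.eval x = 0}) :=
    h1.preimage (Nat.cast_injective.injOn)
  have h3 := h2.compl_mem_cofinite
  rw [Nat.cofinite_eq_atTop] at h3
  filter_upwards [h3] with m hm
  exact hm

lemma eq_of_ev {A B : ℝ[X]} (h : ∀ᶠ m : ℕ in atTop, A.eval (m : ℝ) = B.eval (m : ℝ)) : A = B := by
  by_contra hne
  have h1 := ev_ne (sub_ne_zero.2 hne)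
  obtain ⟨m, hm, hm'⟩ := (h.and h1).exists
  rw [eval_sub, hm, sub_self] at hm'
  exact hm' rfl

lemma comp_ne {B : ℝ[X]} (hB : B ≠ 0) : B.comp (X + 1) ≠ 0 := by
  intro h
  have h1 := congrArg (fun Q : ℝ[X] => Q.comp (X - 1)) h
  simp only [comp_assoc, add_comp, X_comp, one_comp, sub_add_cancel, comp_X, zero_comp] at h1
  exact hB h1

lemma Rl.shift {f : ℕ → ℝ} (hf : Rl f) : Rl fun m => f (m + 1) := by
  obtain ⟨A, B, hB, h⟩ := hf
  refine ⟨A.comp (X + 1), B.comp (X + 1), comp_ne hB, ?_⟩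
  have h1 := (tendsto_add_atTop_nat 1).eventually h
  filter_upwards [h1] with m hm
  rw [hm]
  simp [eval_comp]

lemma Rl.congr {f g : ℕ → ℝ} (hf : Rl f) (h : ∀ᶠ m in atTop, g m = f m) : Rl g := by
  obtain ⟨A, B, hB, h1⟩ := hf
  refine ⟨A, B, hB, ?_⟩
  filter_upwards [h, h1] with m hm hm1
  rw [hm, hm1]

lemma Rl.add {f g : ℕ → ℝ} (hf : Rl f) (hg : Rl g) : Rl fun m => f m + g m := by
  obtain ⟨A, B, hB, h⟩ := hf
  obtain ⟨A', B', hB', h'⟩ := hg
  refine ⟨A * B' + A' * B, B * B', mul_ne_zero hB hB', ?_⟩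
  filter_upwards [h, h', ev_ne hB, ev_ne hB'] with m h1 h2 h3 h4
  rw [h1, h2, eval_add, eval_mul, eval_mul, eval_mul]
  field_simp

lemma Rl.mul {f g : ℕ → ℝ} (hf : Rl f) (hg : Rl g) : Rl fun m => f m * g m := by
  obtain ⟨A, B, hB, h⟩ := hf
  obtain ⟨A', B', hB', h'⟩ := hg
  refine ⟨A * A', B * B', mul_ne_zero hB hB', ?_⟩
  filter_upwards [h, h', ev_ne hB, ev_ne hB'] with m h1 h2 h3 h4
  rw [h1, h2, eval_mul, eval_mul]
  field_simp

lemma Rl.poly (A : ℝ[X]) : Rl fun m => A.eval (m : ℝ) :=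
  ⟨A, 1, one_ne_zero, Eventually.of_forall fun m => by simp⟩

lemma Rl.const (c : ℝ) : Rl fun _ => c := by
  simpa using Rl.poly (C c)

lemma Rl.inv {f : ℕ → ℝ} (hf : Rl f) : Rl fun m => (f m)⁻¹ := by
  obtain ⟨A, B, hB, h⟩ := hf
  by_cases hA : A = 0
  · refine (Rl.const 0).congr ?_
    filter_upwards [h] with m hm
    rw [hm, hA]
    simp
  · refine ⟨B, A, hA, ?_⟩
    filter_upwards [h] with m hm
    rw [hm, inv_div]

lemma Rl.sum {ι : Type} (F : Finset ι) {f : ι → ℕ → ℝ} (h : ∀ i ∈ F, Rl (f i)) :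
    Rl fun m => ∑ i ∈ F, f i m := by
  classical
  induction F using Finset.induction_on with
  | empty => simpa using Rl.const 0
  | insert a F ha ih =>
    simp only [Finset.sum_insert ha]
    exact (h a (Finset.mem_insert_self _ _)).add (ih fun i hi => h i (Finset.mem_insert_of_mem hi))

lemma Rl.zero_or {f : ℕ → ℝ} (hf : Rl f) :
    (∀ᶠ m in atTop, f m = 0) ∨ ∀ᶠ m in atTop, f m ≠ 0 := by
  obtain ⟨A, B, hB, h⟩ := hf
  by_cases hA : A = 0
  · left
    filter_upwards [h] with m hm
    rw [hm, hA]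
    simp
  · right
    filter_upwards [h, ev_ne hA, ev_ne hB] with m hm h1 h2
    rw [hm]
    exact div_ne_zero h1 h2

/-- the key lemma for polynomials -/
lemma key0 {A B T : ℝ[X]} {S : ℕ} (hco : IsCoprime A B) (hB : B ≠ 0) (hS : 1 ≤ S) (hT : T.eval 0 ≠ 0)
    (h : X ^ S * (A.comp (X + 1) * B - A * B.comp (X + 1)) = T * (B * B.comp (X + 1))) : False := by
  have hev : ∀ z : ℝ, z ^ S * (A.eval (z + 1) * B.eval z - A.eval z * B.eval (z + 1)) =
      T.eval z * (B.eval z * B.eval (z + 1)) := by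
    intro z
    have := congrArg (eval z) h
    simpa [eval_comp] using this
  have hcop : ∀ z : ℝ, B.eval z = 0 → A.eval z ≠ 0 := by
    intro z hz hz'
    obtain ⟨a, b, hab⟩ := hco
    have := congrArg (eval z) hab
    rw [eval_add, eval_mul, eval_mul, hz, hz', eval_one] at this
    simp at this
  have hfin : Set.Finite {z : ℤ | B.eval (z : ℝ) = 0} := by
    have h1 : Set.Finite {x : ℝ | B.IsRoot x} := Polynomial.finite_setOfPred_isRoot hB
    exact h1.preimage (Int.cast_injective.injOn)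
  have h01 : B.eval 0 * B.eval 1 = 0 := by
    have := hev 0
    rw [zero_pow (by omega), zero_mul, zero_add] at this
    rcases mul_eq_zero.1 this.symm with h1 | h1
    · exact absurd h1 hT
    · exact h1
  have hne : hfin.toFinset.Nonempty := by
    rcases mul_eq_zero.1 h01 with h1 | h1
    · exact ⟨0, by simpa using h1⟩
    · exact ⟨1, by simpa using h1⟩
  have hS0 : S ≠ 0 := by omega
  have hmax := hfin.toFinset.max'_mem hne
  have hmin := hfin.toFinset.min'_mem hne
  set z := hfin.toFinset.max' hne with hz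
  set y := hfin.toFinset.min' hne with hy
  have hz1 : B.eval (z : ℝ) = 0 := by simpa using hmax
  have hy1 : B.eval (y : ℝ) = 0 := by simpa using hmin
  have hz2 : B.eval ((z : ℝ) + 1) ≠ 0 := by
    intro h1
    have h2 : z + 1 ∈ hfin.toFinset := by simpa using h1
    have h3 := hfin.toFinset.le_max' _ h2
    rw [← hz] at h3
    omega
  have hy2 : B.eval ((y : ℝ) - 1) ≠ 0 := by
    intro h1
    have h2 : y - 1 ∈ hfin.toFinset := by simpa using h1
    have h3 := hfin.toFinset.min'_le _ h2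
    rw [← hy] at h3
    omega
  have hz0 : z = 0 := by
    have h1 := hev z
    rw [hz1] at h1
    simp only [mul_zero, zero_mul, zero_sub] at h1
    rcases mul_eq_zero.1 h1 with h2 | h2
    · exact_mod_cast (pow_eq_zero_iff hS0).1 h2
    · exact absurd (neg_eq_zero.1 h2) (mul_ne_zero (hcop _ hz1) hz2)
  have hy0 : y = 1 := by
    have h1 := hev (y - 1)
    rw [sub_add_cancel, hy1] at h1
    simp only [mul_zero, sub_zero] at h1
    rcases mul_eq_zero.1 h1 with h2 | h2
    · have h3 := (pow_eq_zero_iff hS0).1 h2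
      have h4 : (y : ℝ) = 1 := by linarith
      exact_mod_cast h4
    · exact absurd h2 (mul_ne_zero (hcop _ hy1) hy2)
  have h5 := hfin.toFinset.min'_le _ hmax
  rw [← hy, hy0, hz0] at h5
  omega

/-- the difference of a rational function is not a nonzero polynomial in `1 / m` without constant term -/
lemma key1 {A B T : ℝ[X]} {S : ℕ} (hB : B ≠ 0) (hT : T ≠ 0) (hS : T.natDegree < S)
    (h : ∀ᶠ m : ℕ in atTop, A.eval ((m : ℝ) + 1) / B.eval ((m : ℝ) + 1) - A.eval (m : ℝ) / B.eval (m : ℝ) =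
      T.eval (m : ℝ) / (m : ℝ) ^ S) : False := by
  obtain ⟨A', B', hA', hB', hu⟩ := extract_gcd A B
  set g := gcd A B with hg
  have hg0 : g ≠ 0 := by
    intro h0
    rw [h0, zero_mul] at hB'
    exact hB hB'
  have hB'0 : B' ≠ 0 := by
    intro h0
    rw [h0, mul_zero] at hB'
    exact hB hB'
  have hco : IsCoprime A' B' := (gcd_isUnit_iff A' B').1 hu
  obtain ⟨T', hT'⟩ := exists_eq_pow_rootMultiplicity_mul_and_not_dvd T hT 0
  obtain ⟨hT1, hT2⟩ := hT'
  set k := rootMultiplicity 0 T with hk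
  rw [map_zero, sub_zero] at hT1 hT2
  have hkS : k < S := by
    refine lt_of_le_of_lt ?_ hS
    rw [hT1, natDegree_mul (pow_ne_zero _ X_ne_zero) ?_, natDegree_X_pow]
    · omega
    · intro h0
      rw [h0] at hT2
      exact hT2 (dvd_zero _)
  have hT0 : T'.eval 0 ≠ 0 := by
    intro h0
    apply hT2
    rw [X_dvd_iff, coeff_zero_eq_eval_zero]
    exact h0
  refine key0 (S := S - k) (T := T') hco hB'0 (by omega) hT0 ?_
  apply eq_of_ev
  have hBs := (tendsto_add_atTop_nat 1).eventually (ev_ne hB'0)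
  have hgs := (tendsto_add_atTop_nat 1).eventually (ev_ne hg0)
  filter_upwards [h, ev_ne hB'0, ev_ne hg0, hBs, hgs, eventually_ge_atTop 1] with m h1 h2 h3 h4 h5 h6
  push_cast at h4 h5
  have hm : (m : ℝ) ≠ 0 := by
    have : 0 < m := h6
    positivity
  rw [hA', hB', hT1] at h1
  simp only [eval_mul, eval_pow, eval_X] at h1
  rw [mul_div_mul_left _ _ h5, mul_div_mul_left _ _ h3] at h1
  have e1 : (m : ℝ) ^ S = (m : ℝ) ^ k * (m : ℝ) ^ (S - k) := by
    rw [← pow_add]
    congr 1
    omega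
  rw [e1, mul_div_mul_left _ _ (pow_ne_zero _ hm), div_sub_div _ _ h4 h2,
    div_eq_div_iff (mul_ne_zero h4 h2) (pow_ne_zero _ hm)] at h1
  simp only [eval_mul, eval_pow, eval_X, eval_sub, eval_comp, eval_add, eval_one]
  linear_combination h1

/-- the key lemma -/
lemma key {ι : Type} {f : ℕ → ℝ} (hf : Rl f) (F : Finset ι) (c : ι → ℝ) (h : ι → ℕ)
    (hinj : Set.InjOn h F) (h1 : ∀ i ∈ F, 1 ≤ h i)
    (he : ∀ᶠ m : ℕ in atTop, f (m + 1) - f m + ∑ i ∈ F, c i / (m : ℝ) ^ h i = 0) :
    ∀ i ∈ F, c i = 0 := by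
  classical
  by_contra hcon
  push Not at hcon
  obtain ⟨i₀, hi₀, hc⟩ := hcon
  obtain ⟨A, B, hB, hA⟩ := hf
  set S := ∑ i ∈ F, h i with hS
  have hle : ∀ i ∈ F, h i ≤ S := fun i hi => Finset.single_le_sum (fun _ _ => Nat.zero_le _) hi
  set T : ℝ[X] := ∑ i ∈ F, C (-c i) * X ^ (S - h i) with hT
  have hT0 : T ≠ 0 := by
    intro h0
    have h2 : T.coeff (S - h i₀) = -c i₀ := by
      rw [hT, finsetSum_coeff, Finset.sum_eq_single_of_mem i₀ hi₀]
      · rw [coeff_C_mul, coeff_X_pow, if_pos rfl, mul_one]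
      · intro j hj hne
        rw [coeff_C_mul, coeff_X_pow, if_neg, mul_zero]
        intro h3
        have h4 := hle j hj
        have h5 := hle i₀ hi₀
        exact hne (hinj hj hi₀ (by omega))
    rw [h0, coeff_zero] at h2
    exact hc (by linarith)
  have hdeg : T.natDegree < S := by
    have hS1 : 1 ≤ S := (h1 i₀ hi₀).trans (hle i₀ hi₀)
    have : T.natDegree ≤ S - 1 := by
      rw [hT]
      refine natDegree_sum_le_of_forall_le _ _ fun i hi => ?_
      refine (natDegree_C_mul_X_pow_le _ _).trans ?_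
      have := h1 i hi
      omega
    omega
  refine key1 (A := A) (B := B) hB hT0 hdeg ?_
  have hA1 := (tendsto_add_atTop_nat 1).eventually hA
  filter_upwards [he, hA, hA1, eventually_ge_atTop 1] with m h2 h3 h4 h5
  have hm : (m : ℝ) ≠ 0 := by
    have : 0 < m := h5
    positivity
  push_cast at h4
  rw [← h3, ← h4]
  have h6 : T.eval (m : ℝ) / (m : ℝ) ^ S = -∑ i ∈ F, c i / (m : ℝ) ^ h i := by
    rw [hT, eval_finsetSum, Finset.sum_div, ← Finset.sum_neg_distrib]
    refine Finset.sum_congr rfl fun i hi => ?_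
    rw [eval_mul, eval_C, eval_pow, eval_X]
    have e1 : (m : ℝ) ^ S = (m : ℝ) ^ (S - h i) * (m : ℝ) ^ h i := by
      rw [← pow_add]
      congr 1
      have := hle i hi
      omega
    rw [e1]
    field_simp
  rw [h6]
  linarith

lemma hr_succ (a : ℕ) (l : List ℕ) {m : ℕ} (hm : 1 ≤ m) :
    hr (a :: l) (m + 1) = hr (a :: l) m + hr l m / (m : ℝ) ^ a := by
  rw [hr_cons, hr_cons, Finset.sum_Ico_succ_top hm]

/-- the general statement -/
lemma gen : ∀ (n : ℕ) (W : Finset (List ℕ)), W.card = n → (∀ w ∈ W, ∀ x ∈ w, 1 ≤ x) →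
    (∀ w ∈ W, w.tail ∈ W) → ∀ R : List ℕ → ℕ → ℝ, (∀ w ∈ W, Rl (R w)) →
    (∀ᶠ m in atTop, ∑ w ∈ W, R w m * hr w m = 0) → ∀ w ∈ W, ∀ᶠ m in atTop, R w m = 0 := by
  classical
  intro n
  induction n using Nat.strong_induction_on with
  | _ n ih =>
  intro W hn hpos hcl R hR hrel
  rcases W.eq_empty_or_nonempty with h0 | hne
  · intro w hw
    rw [h0] at hw
    exact absurd hw (Finset.notMem_empty _)
  obtain ⟨u, hu, hmax⟩ := Finset.exists_max_image W List.sum hne
  have hsum : ∀ w ∈ W, w ≠ [] → w.tail.sum < w.sum := by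
    intro w hw hwn
    cases w with
    | nil => exact absurd rfl hwn
    | cons x l =>
      have := hpos _ hw x List.mem_cons_self
      simp only [List.tail_cons, List.sum_cons]
      omega
  -- no word has the tail `u`
  have htu : ∀ w ∈ W, w ≠ [] → w.tail ≠ u := by
    intro w hw hwn h1
    have h2 := hsum w hw hwn
    rw [h1] at h2
    exact absurd (hmax w hw) (by omega)
  have hcle : ∀ w ∈ W.erase u, w.tail ∈ W.erase u := by
    intro w hw
    obtain ⟨hw1, hw2⟩ := Finset.mem_erase.1 hw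
    refine Finset.mem_erase.2 ⟨?_, hcl w hw2⟩
    by_cases hwn : w = []
    · rw [hwn, List.tail_nil, ← hwn]
      exact hw1
    · exact htu w hw2 hwn
  have hcard : (W.erase u).card < n := by
    rw [Finset.card_erase_of_mem hu, ← hn]
    have := Finset.card_pos.2 hne
    omega
  rcases (hR u hu).zero_or with hz | hnz
  · -- the coefficient of `u` is zero
    have h1 := ih _ hcard (W.erase u) rfl (fun w hw => hpos w (Finset.mem_of_mem_erase hw)) hcle R
      (fun w hw => hR w (Finset.mem_of_mem_erase hw)) ?_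
    · intro w hw
      by_cases hwu : w = u
      · rw [hwu]
        exact hz
      · exact h1 w (Finset.mem_erase.2 ⟨hwu, hw⟩)
    · filter_upwards [hrel, hz] with m hm hm'
      rw [← Finset.add_sum_erase W _ hu, hm', zero_mul, zero_add] at hm
      exact hm
  exfalso
  by_cases hun : u = []
  · -- only the empty word
    have hW : W = {[]} := by
      refine Finset.eq_singleton_iff_unique_mem.2 ⟨hun ▸ hu, fun w hw => ?_⟩
      by_contra hwn
      have h1 := hsum w hw hwn
      have h2 := hmax w hw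
      rw [hun, List.sum_nil] at h2
      omega
    obtain ⟨m, h1, h2⟩ := (hrel.and hnz).exists
    rw [hW, Finset.sum_singleton, hr_nil, mul_one, ← hun] at h1
    exact h2 h1
  -- normalize
  set r : List ℕ → ℕ → ℝ := fun w m => R w m * (R u m)⁻¹ with hr0
  have hrR : ∀ w ∈ W, Rl (r w) := fun w hw => (hR w hw).mul (hR u hu).inv
  have hru : ∀ᶠ m in atTop, r u m = 1 := by
    filter_upwards [hnz] with m hm
    exact mul_inv_cancel₀ hm
  have hrel2 : ∀ᶠ m in atTop, ∑ w ∈ W, r w m * hr w m = 0 := by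
    filter_upwards [hrel] with m hm
    have : ∑ w ∈ W, r w m * hr w m = (∑ w ∈ W, R w m * hr w m) * (R u m)⁻¹ := by
      rw [Finset.sum_mul]
      exact Finset.sum_congr rfl fun w _ => by simp only [hr0]; ring
    rw [this, hm, zero_mul]
  -- the words with the tail `l`
  set F : List ℕ → Finset (List ℕ) := fun l => W.filter fun w => w ≠ [] ∧ w.tail = l with hF
  set r' : List ℕ → ℕ → ℝ := fun l m =>
    r l (m + 1) - r l m + ∑ w ∈ F l, r w (m + 1) / (m : ℝ) ^ w.headD 0 with hr'
  have hrel3 : ∀ᶠ m in atTop, ∑ l ∈ W, r' l m * hr l m = 0 := by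
    have h1 := (tendsto_add_atTop_nat 1).eventually hrel2
    filter_upwards [hrel2, h1, eventually_ge_atTop 1] with m h2 h3 h4
    have h5 : ∀ w : List ℕ, r w (m + 1) * hr w (m + 1) = r w (m + 1) * hr w m +
        if w ≠ [] then r w (m + 1) / (m : ℝ) ^ w.headD 0 * hr w.tail m else 0 := by
      intro w
      cases w with
      | nil => simp [hr_nil]
      | cons a l =>
        rw [hr_succ a l h4, if_pos (by simp)]
        simp only [List.headD_cons, List.tail_cons]
        ring
    have h6 : ∑ w ∈ W, (if w ≠ [] then r w (m + 1) / (m : ℝ) ^ w.headD 0 * hr w.tail m else 0) =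
        ∑ l ∈ W, (∑ w ∈ F l, r w (m + 1) / (m : ℝ) ^ w.headD 0) * hr l m := by
      rw [← Finset.sum_filter,
        ← Finset.sum_fiberwise_of_maps_to (t := W) (g := List.tail)
          (fun w hw => hcl w (Finset.mem_filter.1 hw).1)]
      refine Finset.sum_congr rfl fun l _ => ?_
      rw [Finset.filter_filter, Finset.sum_mul]
      refine Finset.sum_congr rfl fun w hw => ?_
      rw [(Finset.mem_filter.1 hw).2.2]
    have h7 : ∑ l ∈ W, r' l m * hr l m = (∑ w ∈ W, r w (m + 1) * hr w (m + 1)) -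
        ∑ w ∈ W, r w m * hr w m := by
      rw [Finset.sum_congr rfl fun w _ => h5 w, Finset.sum_add_distrib, h6, ← Finset.sum_add_distrib,
        ← Finset.sum_sub_distrib]
      refine Finset.sum_congr rfl fun l _ => ?_
      simp only [hr']
      ring
    rw [h7, h2, h3, sub_zero]
  have hFu : F u = ∅ := by
    rw [Finset.eq_empty_iff_forall_notMem]
    intro w hw
    obtain ⟨h1, h2, h3⟩ := Finset.mem_filter.1 hw
    exact htu w h1 h2 h3
  have hru' : ∀ᶠ m in atTop, r' u m = 0 := by
    have h1 := (tendsto_add_atTop_nat 1).eventually hru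
    filter_upwards [hru, h1] with m h2 h3
    simp only [hr', hFu, Finset.sum_empty, h2, h3]
    norm_num
  have hr'R : ∀ l ∈ W, Rl (r' l) := by
    intro l hl
    have h1 : Rl fun m => r l (m + 1) := (hrR l hl).shift
    have h2 : Rl fun m => (-1 : ℝ) * r l m := (Rl.const (-1)).mul (hrR l hl)
    have h3 : Rl fun m : ℕ => ∑ w ∈ F l, r w (m + 1) * ((X ^ w.headD 0 : ℝ[X]).eval (m : ℝ))⁻¹ :=
      Rl.sum _ fun w hw => (hrR w (Finset.mem_filter.1 hw).1).shift.mul (Rl.poly _).inv
    refine ((h1.add h2).add h3).congr (Eventually.of_forall fun m => ?_)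
    simp only [hr', eval_pow, eval_X, div_eq_mul_inv]
    ring
  have hall : ∀ l ∈ W, ∀ᶠ m in atTop, r' l m = 0 := by
    have h1 := ih _ hcard (W.erase u) rfl (fun w hw => hpos w (Finset.mem_of_mem_erase hw)) hcle r'
      (fun w hw => hr'R w (Finset.mem_of_mem_erase hw)) ?_
    · intro w hw
      by_cases hwu : w = u
      · rw [hwu]
        exact hru'
      · exact h1 w (Finset.mem_erase.2 ⟨hwu, hw⟩)
    · filter_upwards [hrel3, hru'] with m hm hm'
      rw [← Finset.add_sum_erase W _ hu, hm', zero_mul, zero_add] at hm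
      exact hm
  -- one step
  have step : ∀ l ∈ W, (∀ w ∈ F l, ∃ c : ℝ, ∀ᶠ m in atTop, r w m = c) →
      (∀ w ∈ F l, ∀ᶠ m in atTop, r w m = 0) ∧ ∃ c : ℝ, ∀ᶠ m in atTop, r l m = c := by
    intro l hl hc
    choose! c hc using hc
    have hmem : ∀ w ∈ F l, w = w.headD 0 :: l := by
      intro w hw
      obtain ⟨_, h2, h3⟩ := Finset.mem_filter.1 hw
      cases w with
      | nil => exact absurd rfl h2
      | cons a t =>
        simp only [List.tail_cons] at h3
        rw [h3]
        rfl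
    have hev : ∀ᶠ m : ℕ in atTop, ∀ w ∈ F l, r w (m + 1) = c w := by
      have h1 : ∀ᶠ m : ℕ in atTop, ∀ w ∈ F l, r w m = c w :=
        (Finset.eventually_all _).2 hc
      exact (tendsto_add_atTop_nat 1).eventually h1
    have hk := key (hrR l hl) (F l) c (fun w => w.headD 0)
      (fun w hw w' hw' h => by
        rw [hmem w hw, hmem w' hw']
        simp only at h
        rw [h])
      (fun w hw => by
        obtain ⟨h1, h2, h3⟩ := Finset.mem_filter.1 hw
        cases w with
        | nil => exact absurd rfl h2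
        | cons a t => exact hpos _ h1 a List.mem_cons_self)
      (by
        filter_upwards [hall l hl, hev] with m h1 h2
        rw [← h1]
        simp only [hr']
        congr 1
        exact Finset.sum_congr rfl fun w hw => by rw [h2 w hw])
    refine ⟨fun w hw => ?_, ?_⟩
    · filter_upwards [hc w hw] with m hm
      rw [hm, hk w hw]
    · have h1 : ∀ᶠ m : ℕ in atTop, r l (m + 1) = r l m := by
        filter_upwards [hall l hl, hev] with m h1 h2
        simp only [hr'] at h1
        rw [Finset.sum_eq_zero (fun w hw => by rw [h2 w hw, hk w hw, zero_div])] at h1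
        linarith
      obtain ⟨M, hM⟩ := eventually_atTop.1 h1
      refine ⟨r l M, eventually_atTop.2 ⟨M, fun m hm => ?_⟩⟩
      induction m, hm using Nat.le_induction with
      | base => rfl
      | succ m hm ih => rw [hM m hm, ih]
  have hv := hcl u hu
  have hconst : ∀ k : ℕ, ∀ l ∈ W, u.tail.sum < l.sum → u.sum - l.sum ≤ k →
      ∃ c : ℝ, ∀ᶠ m in atTop, r l m = c := by
    intro k
    induction k using Nat.strong_induction_on with
    | _ k ihk =>
    intro l hl hlv hk
    refine (step l hl fun w hw => ?_).2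
    obtain ⟨h1, h2, h3⟩ := Finset.mem_filter.1 hw
    have h4 := hsum w h1 h2
    rw [h3] at h4
    have h5 := hmax w h1
    exact ihk (u.sum - w.sum) (by omega) w h1 (by omega) le_rfl
  have hfin := (step u.tail hv fun w hw => by
    obtain ⟨h1, h2, h3⟩ := Finset.mem_filter.1 hw
    have h4 := hsum w h1 h2
    rw [h3] at h4
    exact hconst _ w h1 h4 le_rfl).1 u (Finset.mem_filter.2 ⟨hu, hun, rfl⟩)
  obtain ⟨m, h1, h2⟩ := (hfin.and hru).exists
  rw [h1] at h2
  exact zero_ne_one h2

end Pool.Agent.NH24.OL.Ind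

namespace Pool.Agent.NH24.OL

open Finset Pool.Agent.Y760.ZG Filter Polynomial Ind

theorem t_ind : IND := by
  classical
  intro W P hpos hrel
  set W' := W.biUnion fun w => w.tails.toFinset with hW'
  have hmem : ∀ w, w ∈ W' ↔ ∃ v ∈ W, w <:+ v := by
    intro w
    simp only [hW', Finset.mem_biUnion, List.mem_toFinset, List.mem_tails]
  have hsub : W ⊆ W' := fun w hw => (hmem w).2 ⟨w, hw, List.suffix_rfl⟩
  have h1 := gen _ W' rfl
    (fun w hw x hx => by
      obtain ⟨v, hv, hs⟩ := (hmem w).1 hw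
      exact hpos v hv x (hs.subset hx))
    (fun w hw => by
      obtain ⟨v, hv, hs⟩ := (hmem w).1 hw
      exact (hmem _).2 ⟨v, hv, (List.tail_suffix w).trans hs⟩)
    (fun w m => if w ∈ W then (P w).eval (m : ℝ) else 0)
    (fun w hw => by
      by_cases h : w ∈ W
      · simp only [h, if_true]
        exact Rl.poly _
      · simp only [h, if_false]
        exact Rl.const 0)
    (by
      filter_upwards [eventually_ge_atTop 1] with m hm
      refine (Finset.sum_subset hsub ?_).symm.trans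
        ((Finset.sum_congr rfl fun w hw => by rw [if_pos hw]).trans (hrel m hm))
      intro w _ hw
      rw [if_neg hw, zero_mul])
  intro w hw
  apply eq_of_ev
  filter_upwards [h1 w (hsub hw)] with m hm
  rw [if_pos hw] at hm
  rw [hm, eval_zero]

end Pool.Agent.NH24.OL
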