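import Pool.Agent.NH24.OL.Fin
import Pool.Agent.NH24.OL.Ind

/-!
# Multiple zeta values `ζ(n + j, w)` with short words `w` of all depths
-/

set_option autoImplicit false

namespace Pool.Agent.NH24.OL

lemma ms_one : Ms (![1] : Fin 1 → ℝ) 1 0 := by
  intro P hP H _ _
  rw [pow_zero, div_one]
  have h1 : P 0 ≠ 0 := by
    intro h
    apply hP
    funext i
    fin_cases i
    exact h
  have h2 : (1 : ℝ) ≤ |(P 0 : ℝ)| := by
    rw [← Int.cast_abs]
    exact_mod_cast Int.one_le_abs h1
  simpa using h2

end Pool.Agent.NH24.OL
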