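import Pool.Agent.NH24.OL.Stm2
import Pool.Agent.NH24.SQ.D

/-!
# Multiple zeta values `ζ(n + j, w)` with short words `w`: the first nonzero coefficient dominates
-/

set_option autoImplicit false

namespace Pool.Agent.NH24.OL

open Finset Pool.Agent.Y760.ZG
open Pool.Agent.NH24.SQ (log_lcm dvd_lcmUpto)
open Pool.Agent.NH24.DZ (sum_inv_sq summable_inv_sq)

namespace Core

/-- the number of words of bounded weight -/
lemma card_words (H : Finset (List ℕ)) (M : ℕ) (hH : ∀ h ∈ H, (∀ m ∈ h, 1 ≤ m) ∧ h.sum ≤ M) :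
    H.card ≤ 2 ^ M := by
  classical
  have h1 : Fintype.card (Composition (M + 1)) = 2 ^ M := by
    rw [composition_card, Nat.add_sub_cancel]
  rw [← h1, ← Fintype.card_coe]
  let f : {h // h ∈ H} → Composition (M + 1) := fun h =>
    { blocks := h.1 ++ [M + 1 - h.1.sum]
      blocks_pos := by
        intro i hi
        rw [List.mem_append, List.mem_singleton] at hi
        rcases hi with hi | rfl
        · exact (hH h.1 h.2).1 i hi
        · have := (hH h.1 h.2).2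
          omega
      blocks_sum := by
        have := (hH h.1 h.2).2
        rw [List.sum_append, List.sum_singleton]
        omega }
  refine Fintype.card_le_of_injective f ?_
  intro h h' hh
  have h2 : (f h).blocks = (f h').blocks := by rw [hh]
  exact Subtype.ext (List.append_inj_left' h2 rfl)

/-- the condition on the words -/
def Ok (J Q : ℕ) (S : Finset (ℕ × List ℕ)) : Prop :=
  ∀ p ∈ S, p.1 ≤ J ∧ (∀ x ∈ p.2, 1 ≤ x) ∧ p.2.sum ≤ Q

lemma card_S {J Q : ℕ} {S : Finset (ℕ × List ℕ)} (hS : Ok J Q S) : S.card ≤ (J + 1) * 2 ^ Q := by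
  classical
  have h1 : S ⊆ range (J + 1) ×ˢ (S.image Prod.snd) := by
    intro p hp
    rw [mem_product, mem_range]
    exact ⟨Nat.lt_succ_of_le (hS p hp).1, mem_image_of_mem _ hp⟩
  refine (card_le_card h1).trans ?_
  rw [card_product, card_range]
  refine Nat.mul_le_mul_left _ (card_words _ _ fun w hw => ?_)
  obtain ⟨p, hp, rfl⟩ := mem_image.1 hw
  exact (hS p hp).2

lemma term_le {J Q m : ℕ} (hm : 1 ≤ m) {p : ℕ × List ℕ}
    (hp : p.1 ≤ J ∧ (∀ x ∈ p.2, 1 ≤ x) ∧ p.2.sum ≤ Q) :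
    0 ≤ (m : ℝ) ^ (J - p.1) * hr p.2 m ∧ (m : ℝ) ^ (J - p.1) * hr p.2 m ≤ (m : ℝ) ^ (J + Q) := by
  have hm1 : (1 : ℝ) ≤ m := by exact_mod_cast hm
  refine ⟨mul_nonneg (by positivity) (hr_nonneg _ _), ?_⟩
  rw [pow_add]
  have h1 : hr p.2 m ≤ (m : ℝ) ^ Q := (hr_le p.2 m hm).trans
    (pow_le_pow_right₀ hm1 ((List.length_le_sum_of_one_le p.2 hp.2.1).trans hp.2.2))
  exact mul_le_mul (pow_le_pow_right₀ hm1 (Nat.sub_le _ _)) h1 (hr_nonneg _ _) (by positivity)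

lemma gg_le {r : ℕ} (Θ : Fin r → ℝ) {J Q h : ℕ} {S : Finset (ℕ × List ℕ)}
    {a : ℕ × List ℕ → Fin r → ℤ} (hS : Ok J Q S) (ha : ∀ p ∈ S, ∀ i, |(a p i : ℝ)| ≤ (2 : ℝ) ^ h)
    {m : ℕ} (hm : 1 ≤ m) : |gg Θ J S a m| ≤
      (1 + ∑ i, |Θ i|) * 2 ^ h * (((J : ℝ) + 1) * 2 ^ Q) * (m : ℝ) ^ (J + Q) := by
  have hT : 0 ≤ ∑ i, |Θ i| := sum_nonneg fun i _ => abs_nonneg _
  unfold gg
  calc |∑ p ∈ S, (∑ i, (a p i : ℝ) * Θ i) * ((m : ℝ) ^ (J - p.1) * hr p.2 m)|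
      ≤ ∑ p ∈ S, |(∑ i, (a p i : ℝ) * Θ i) * ((m : ℝ) ^ (J - p.1) * hr p.2 m)| :=
        abs_sum_le_sum_abs _ _
    _ ≤ ∑ p ∈ S, ((1 + ∑ i, |Θ i|) * 2 ^ h) * (m : ℝ) ^ (J + Q) := by
        refine sum_le_sum fun p hp => ?_
        obtain ⟨h1, h2⟩ := term_le hm (hS p hp)
        rw [abs_mul, abs_of_nonneg h1]
        refine mul_le_mul ?_ h2 h1 (by positivity)
        calc |∑ i, (a p i : ℝ) * Θ i| ≤ ∑ i, |(a p i : ℝ) * Θ i| := abs_sum_le_sum_abs _ _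
          _ ≤ ∑ i, 2 ^ h * |Θ i| := sum_le_sum fun i _ => by
              rw [abs_mul]
              exact mul_le_mul_of_nonneg_right (ha p hp i) (abs_nonneg _)
          _ = (∑ i, |Θ i|) * 2 ^ h := by rw [← mul_sum, mul_comm]
          _ ≤ _ := mul_le_mul_of_nonneg_right (by linarith) (by positivity)
    _ = (S.card : ℝ) * (((1 + ∑ i, |Θ i|) * 2 ^ h) * (m : ℝ) ^ (J + Q)) := by
        rw [sum_const, nsmul_eq_mul]
    _ ≤ (((J : ℝ) + 1) * 2 ^ Q) * (((1 + ∑ i, |Θ i|) * 2 ^ h) * (m : ℝ) ^ (J + Q)) := by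
        refine mul_le_mul_of_nonneg_right ?_ (by positivity)
        exact_mod_cast card_S hS
    _ = _ := by ring

lemma hr_int (x : ℕ) (w : List ℕ) :
    ∀ m, m ≤ x → ∃ z : ℤ, hr w m * (Nat.lcmUpto x : ℝ) ^ w.sum = z := by
  induction w with
  | nil =>
    intro m _
    exact ⟨1, by rw [hr_nil]; simp⟩
  | cons b l ih =>
    intro m hm
    have h1 : ∀ j ∈ Ico 1 m, ∃ z : ℤ,
        hr l j / (j : ℝ) ^ b * (Nat.lcmUpto x : ℝ) ^ (b :: l).sum = z := by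
      intro j hj
      rw [mem_Ico] at hj
      obtain ⟨z, hz⟩ := ih j (by omega)
      obtain ⟨w', hw⟩ := dvd_lcmUpto hj.1 (show j ≤ x by omega)
      have hj0 : (j : ℝ) ≠ 0 := by
        have : (0 : ℝ) < j := by exact_mod_cast hj.1
        exact this.ne'
      have hw2 : (Nat.lcmUpto x : ℝ) ^ b = (j : ℝ) ^ b * (w' : ℝ) ^ b := by
        rw [hw]
        push_cast
        rw [mul_pow]
      refine ⟨z * (w' : ℤ) ^ b, ?_⟩
      rw [List.sum_cons, pow_add, hw2]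
      push_cast
      rw [← hz]
      field_simp
    choose! z hz using h1
    refine ⟨∑ j ∈ Ico 1 m, z j, ?_⟩
    rw [hr_cons, sum_mul]
    push_cast
    exact sum_congr rfl hz

lemma gg_low {r : ℕ} {Θ : Fin r → ℝ} {c0 : ℝ} {κ : ℕ} (hM : Ms Θ c0 κ) {J Q h : ℕ}
    {S : Finset (ℕ × List ℕ)} {a : ℕ × List ℕ → Fin r → ℤ} (hS : Ok J Q S)
    (ha : ∀ p ∈ S, ∀ i, |(a p i : ℝ)| ≤ (2 : ℝ) ^ h) {x : ℕ} (hx : 1 ≤ x)
    (h0 : gg Θ J S a x ≠ 0) :
    c0 / (((Nat.lcmUpto x : ℝ) ^ Q * (2 ^ h * (((J : ℝ) + 1) * 2 ^ Q) * (x : ℝ) ^ (J + Q))) ^ κ *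
      (Nat.lcmUpto x : ℝ) ^ Q) ≤ |gg Θ J S a x| := by
  have hx1 : (1 : ℝ) ≤ x := by exact_mod_cast hx
  have hz1 : ∀ p ∈ S, ∃ z : ℤ, hr p.2 x * (Nat.lcmUpto x : ℝ) ^ Q = z := by
    intro p hp
    obtain ⟨z, hz⟩ := hr_int x p.2 x le_rfl
    obtain ⟨e, he⟩ := Nat.exists_eq_add_of_le (hS p hp).2.2
    refine ⟨z * (Nat.lcmUpto x : ℤ) ^ e, ?_⟩
    rw [he, pow_add, ← mul_assoc, hz]
    push_cast
    rfl
  choose! z hz using hz1
  obtain ⟨L, hL⟩ : ∃ L : ℝ, L = (Nat.lcmUpto x : ℝ) := ⟨_, rfl⟩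
  rw [← hL] at hz ⊢
  have hL1 : (1 : ℝ) ≤ L := by
    rw [hL]
    exact_mod_cast Nat.lcmUpto_pos x
  have hL0 : 0 < L ^ Q := by positivity
  obtain ⟨P, hP⟩ : ∃ P : Fin r → ℤ, P = fun i => ∑ p ∈ S, a p i * ((x : ℤ) ^ (J - p.1) * z p) :=
    ⟨_, rfl⟩
  have hP1 : ∀ i, (P i : ℝ) = ∑ p ∈ S, (a p i : ℝ) * ((x : ℝ) ^ (J - p.1) * hr p.2 x) * L ^ Q := by
    intro i
    rw [hP]
    push_cast
    refine sum_congr rfl fun p hp => ?_
    rw [← hz p hp]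
    ring
  have hsum : ∑ i, (P i : ℝ) * Θ i = gg Θ J S a x * L ^ Q := by
    unfold gg
    simp only [hP1, sum_mul]
    rw [sum_comm]
    refine sum_congr rfl fun p _ => sum_congr rfl fun i _ => ?_
    ring
  have hP0 : P ≠ 0 := by
    intro hcon
    rw [hcon] at hsum
    simp only [Pi.zero_apply, Int.cast_zero, zero_mul, sum_const_zero] at hsum
    rcases mul_eq_zero.1 hsum.symm with h1 | h1
    · exact h0 h1
    · exact hL0.ne' h1
  obtain ⟨B, hB⟩ : ∃ B : ℝ, B = L ^ Q * (2 ^ h * (((J : ℝ) + 1) * 2 ^ Q) * (x : ℝ) ^ (J + Q)) :=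
    ⟨_, rfl⟩
  rw [← hB]
  have hB1 : 1 ≤ B := by
    rw [hB]
    have e1 : (1 : ℝ) ≤ L ^ Q := one_le_pow₀ hL1
    have e2 : (1 : ℝ) ≤ 2 ^ h := one_le_pow₀ one_le_two
    have e3 : (1 : ℝ) ≤ (J : ℝ) + 1 := by
      have : (0 : ℝ) ≤ J := Nat.cast_nonneg J
      linarith
    have e4 : (1 : ℝ) ≤ 2 ^ Q := one_le_pow₀ one_le_two
    have e5 : (1 : ℝ) ≤ (x : ℝ) ^ (J + Q) := one_le_pow₀ hx1
    exact one_le_mul_of_one_le_of_one_le e1 (one_le_mul_of_one_le_of_one_le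
      (one_le_mul_of_one_le_of_one_le e2 (one_le_mul_of_one_le_of_one_le e3 e4)) e5)
  have hPB : ∀ i, |(P i : ℝ)| ≤ B := by
    intro i
    rw [hP1 i]
    calc |∑ p ∈ S, (a p i : ℝ) * ((x : ℝ) ^ (J - p.1) * hr p.2 x) * L ^ Q|
        ≤ ∑ p ∈ S, |(a p i : ℝ) * ((x : ℝ) ^ (J - p.1) * hr p.2 x) * L ^ Q| :=
          abs_sum_le_sum_abs _ _
      _ ≤ ∑ p ∈ S, 2 ^ h * (x : ℝ) ^ (J + Q) * L ^ Q := by
          refine sum_le_sum fun p hp => ?_
          obtain ⟨h1, h2⟩ := term_le hx (hS p hp)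
          rw [abs_mul, abs_mul, abs_of_nonneg h1, abs_of_pos hL0]
          exact mul_le_mul_of_nonneg_right (mul_le_mul (ha p hp i) h2 h1 (by positivity)) hL0.le
      _ = (S.card : ℝ) * (2 ^ h * (x : ℝ) ^ (J + Q) * L ^ Q) := by
          rw [sum_const, nsmul_eq_mul]
      _ ≤ (((J : ℝ) + 1) * 2 ^ Q) * (2 ^ h * (x : ℝ) ^ (J + Q) * L ^ Q) := by
          refine mul_le_mul_of_nonneg_right ?_ (by positivity)
          exact_mod_cast card_S hS
      _ = B := by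
          rw [hB]
          ring
  have key := hM P hP0 B hB1 hPB
  rw [hsum, abs_mul, abs_of_pos hL0] at key
  have hB0 : 0 < B ^ κ := by positivity
  rw [div_le_iff₀ hB0] at key
  rw [div_le_iff₀ (by positivity)]
  linarith

lemma f_le {g : ℕ → ℝ} {G : ℝ} (hG : 0 ≤ G) {J Q e : ℕ}
    (hg : ∀ m, 1 ≤ m → |g m| ≤ G * (m : ℝ) ^ (J + Q)) (x i : ℕ) :
    |g (i + x + 1) / ((i + x + 1 : ℕ) : ℝ) ^ (Q + 2 + e + J)| ≤
      G / ((x : ℝ) + 1) ^ e * (1 / ((i + 1 : ℕ) : ℝ) ^ 2) := by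
  have h1 := hg (i + x + 1) (by omega)
  have hm0 : (0 : ℝ) < ((i + x + 1 : ℕ) : ℝ) := by positivity
  rw [abs_div, abs_of_pos (pow_pos hm0 _), div_le_iff₀ (pow_pos hm0 _)]
  refine h1.trans ?_
  have h3 : ((x : ℝ) + 1) ^ e ≤ ((i + x + 1 : ℕ) : ℝ) ^ e := by
    refine pow_le_pow_left₀ (by positivity) ?_ _
    push_cast
    have : (0 : ℝ) ≤ i := Nat.cast_nonneg i
    linarith
  have h4 : ((i + 1 : ℕ) : ℝ) ^ 2 ≤ ((i + x + 1 : ℕ) : ℝ) ^ 2 := by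
    refine pow_le_pow_left₀ (by positivity) ?_ _
    push_cast
    have : (0 : ℝ) ≤ x := Nat.cast_nonneg x
    linarith
  have h5 : ((i + x + 1 : ℕ) : ℝ) ^ (J + Q) * (((x : ℝ) + 1) ^ e * ((i + 1 : ℕ) : ℝ) ^ 2) ≤
      ((i + x + 1 : ℕ) : ℝ) ^ (Q + 2 + e + J) := by
    calc ((i + x + 1 : ℕ) : ℝ) ^ (J + Q) * (((x : ℝ) + 1) ^ e * ((i + 1 : ℕ) : ℝ) ^ 2)
        ≤ ((i + x + 1 : ℕ) : ℝ) ^ (J + Q) *
          (((i + x + 1 : ℕ) : ℝ) ^ e * ((i + x + 1 : ℕ) : ℝ) ^ 2) := by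
          gcongr
      _ = _ := by
          rw [← pow_add, ← pow_add]
          congr 1
          omega
  calc G * ((i + x + 1 : ℕ) : ℝ) ^ (J + Q)
      = G / (((x : ℝ) + 1) ^ e * ((i + 1 : ℕ) : ℝ) ^ 2) *
        (((i + x + 1 : ℕ) : ℝ) ^ (J + Q) * (((x : ℝ) + 1) ^ e * ((i + 1 : ℕ) : ℝ) ^ 2)) := by
        field_simp
    _ ≤ G / (((x : ℝ) + 1) ^ e * ((i + 1 : ℕ) : ℝ) ^ 2) *
        ((i + x + 1 : ℕ) : ℝ) ^ (Q + 2 + e + J) :=
        mul_le_mul_of_nonneg_left h5 (by positivity)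
    _ = _ := by
        field_simp

lemma main_low {g : ℕ → ℝ} {G : ℝ} (hG : 0 ≤ G) {J Q e : ℕ}
    (hg : ∀ m, 1 ≤ m → |g m| ≤ G * (m : ℝ) ^ (J + Q)) {x : ℕ} (hx : 1 ≤ x)
    (h0 : ∀ y, 1 ≤ y → y < x → g y = 0)
    (hnum : 4 * G * (x : ℝ) ^ (Q + 2 + e + J) ≤ |g x| * ((x : ℝ) + 1) ^ e) :
    |g x| / (2 * (x : ℝ) ^ (Q + 2 + e + J)) ≤
      |∑' m : ℕ, g (m + 1) / ((m + 1 : ℕ) : ℝ) ^ (Q + 2 + e + J)| := by
  have hx0 : (0 : ℝ) < x := by exact_mod_cast hx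
  obtain ⟨f, hf⟩ : ∃ f : ℕ → ℝ, f = fun m => g (m + 1) / ((m + 1 : ℕ) : ℝ) ^ (Q + 2 + e + J) :=
    ⟨_, rfl⟩
  have hfl : ∀ x i : ℕ, |f (i + x)| ≤ G / ((x : ℝ) + 1) ^ e * (1 / ((i + 1 : ℕ) : ℝ) ^ 2) := by
    intro x i
    rw [hf]
    exact f_le hG hg x i
  have hs0 : Summable f := by
    refine Summable.of_norm_bounded (summable_inv_sq.mul_left (G / (((0 : ℕ) : ℝ) + 1) ^ e))
      fun m => ?_
    rw [Real.norm_eq_abs]
    exact hfl 0 m
  have hs1 : Summable fun i => f (i + x) := (summable_nat_add_iff x).2 hs0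
  have h2 : ∑' m, f m = f (x - 1) + ∑' i : ℕ, f (i + x) := by
    rw [← hs0.sum_add_tsum_nat_add x]
    congr 1
    rw [Finset.sum_eq_single (x - 1)]
    · intro i hi hne
      rw [mem_range] at hi
      rw [hf]
      show g (i + 1) / _ = 0
      rw [h0 (i + 1) (by omega) (by omega), zero_div]
    · intro h
      exact absurd (mem_range.2 (by omega)) h
  have h3 : |∑' i : ℕ, f (i + x)| ≤ G / ((x : ℝ) + 1) ^ e * 2 := by
    calc |∑' i : ℕ, f (i + x)| ≤ ∑' i : ℕ, |f (i + x)| := by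
          have := norm_tsum_le_tsum_norm hs1.norm
          simpa only [Real.norm_eq_abs] using this
      _ ≤ ∑' i : ℕ, G / ((x : ℝ) + 1) ^ e * (1 / ((i + 1 : ℕ) : ℝ) ^ 2) :=
          Summable.tsum_le_tsum (fun i => hfl x i) hs1.abs (summable_inv_sq.mul_left _)
      _ = G / ((x : ℝ) + 1) ^ e * ∑' i : ℕ, 1 / ((i + 1 : ℕ) : ℝ) ^ 2 := tsum_mul_left
      _ ≤ _ := mul_le_mul_of_nonneg_left sum_inv_sq (by positivity)
  have h4 : |f (x - 1)| = |g x| / (x : ℝ) ^ (Q + 2 + e + J) := by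
    rw [hf]
    show |g (x - 1 + 1) / ((x - 1 + 1 : ℕ) : ℝ) ^ (Q + 2 + e + J)| = _
    rw [Nat.sub_add_cancel hx, abs_div, abs_of_pos (pow_pos hx0 _)]
  have h5 : G / ((x : ℝ) + 1) ^ e * 2 ≤ |g x| / (2 * (x : ℝ) ^ (Q + 2 + e + J)) := by
    rw [div_mul_eq_mul_div, div_le_div_iff₀ (by positivity) (by positivity)]
    linarith
  have h6 : |g x| / (x : ℝ) ^ (Q + 2 + e + J) =
      |g x| / (2 * (x : ℝ) ^ (Q + 2 + e + J)) + |g x| / (2 * (x : ℝ) ^ (Q + 2 + e + J)) := by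
    field_simp
    norm_num
  have h8 : ∑' m : ℕ, g (m + 1) / ((m + 1 : ℕ) : ℝ) ^ (Q + 2 + e + J) = ∑' m, f m := by rw [hf]
  rw [h8, h2]
  have h7 := abs_sub_abs_le_abs_sub (f (x - 1)) (-∑' i : ℕ, f (i + x))
  rw [sub_neg_eq_add, abs_neg] at h7
  linarith

/-- the value is the series -/
lemma F_eq {r : ℕ} (Θ : Fin r → ℝ) {J Q n : ℕ} (hn : Q + 2 ≤ n) {S : Finset (ℕ × List ℕ)}
    (a : ℕ × List ℕ → Fin r → ℤ) (hS : Ok J Q S) :
    ∑ p ∈ S, (∑ i, (a p i : ℝ) * Θ i) * mz ((n + p.1) :: p.2) =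
      ∑' m : ℕ, gg Θ J S a (m + 1) / ((m + 1 : ℕ) : ℝ) ^ (n + J) := by
  have hs : ∀ p ∈ S, Summable fun m : ℕ =>
      (∑ i, (a p i : ℝ) * Θ i) * (hr p.2 (m + 1) / ((m + 1 : ℕ) : ℝ) ^ (n + p.1)) := by
    intro p hp
    refine Summable.mul_left _ ?_
    refine Summable.of_nonneg_of_le (fun m => div_nonneg (hr_nonneg _ _) (by positivity))
      (fun m => ?_) summable_inv_sq
    have hm1 : (1 : ℝ) ≤ ((m + 1 : ℕ) : ℝ) := by
      push_cast
      have : (0 : ℝ) ≤ m := Nat.cast_nonneg m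
      linarith
    have h1 : hr p.2 (m + 1) ≤ ((m + 1 : ℕ) : ℝ) ^ Q := (hr_le p.2 (m + 1) (by omega)).trans
      (pow_le_pow_right₀ hm1 ((List.length_le_sum_of_one_le p.2 (hS p hp).2.1).trans
        (hS p hp).2.2))
    rw [div_le_div_iff₀ (by positivity) (by positivity), one_mul]
    calc hr p.2 (m + 1) * ((m + 1 : ℕ) : ℝ) ^ 2 ≤ ((m + 1 : ℕ) : ℝ) ^ Q * ((m + 1 : ℕ) : ℝ) ^ 2 :=
          mul_le_mul_of_nonneg_right h1 (by positivity)
      _ = ((m + 1 : ℕ) : ℝ) ^ (Q + 2) := by rw [pow_add]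
      _ ≤ ((m + 1 : ℕ) : ℝ) ^ (n + p.1) := pow_le_pow_right₀ hm1 (by omega)
  have h1 : ∀ m : ℕ, gg Θ J S a (m + 1) / ((m + 1 : ℕ) : ℝ) ^ (n + J) =
      ∑ p ∈ S, (∑ i, (a p i : ℝ) * Θ i) * (hr p.2 (m + 1) / ((m + 1 : ℕ) : ℝ) ^ (n + p.1)) := by
    intro m
    have hm0 : ((m + 1 : ℕ) : ℝ) ≠ 0 := by positivity
    unfold gg
    rw [sum_div]
    refine sum_congr rfl fun p hp => ?_
    obtain ⟨e, he⟩ := Nat.exists_eq_add_of_le (hS p hp).1
    have h2 : J - p.1 = e := by omega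
    have h3 : n + J = n + p.1 + e := by omega
    rw [h2, h3, pow_add _ (n + p.1) e]
    field_simp
  rw [tsum_congr h1, Summable.tsum_finsetSum hs]
  refine sum_congr rfl fun p _ => ?_
  rw [tsum_mul_left, mz]

end Core

open Pool.Agent.NH24.OL.Core in
/-- the first nonzero coefficient dominates, uniformly in the measure -/
theorem core40 {r : ℕ} (Θ : Fin r → ℝ) (c0 : ℝ) (κ : ℕ) (hc0 : 0 < c0) (hMs : Ms Θ c0 κ) (A : ℝ)
    (hA1 : 1 ≤ A) (hcA : c0⁻¹ ≤ A) (hTA : ∑ i, |Θ i| ≤ A) (n J Q h M : ℕ) (hJM : J + 1 ≤ M)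
    (hn : (40 : ℝ) * ((κ + 1) * ((M : ℝ) ^ 2 * (Q + Real.log (M + 1)) + M * h) + M * Real.log A) ≤ n)
    (S : Finset (ℕ × List ℕ)) (a : ℕ × List ℕ → Fin r → ℤ)
    (hS : ∀ p ∈ S, p.1 ≤ J ∧ (∀ x ∈ p.2, 1 ≤ x) ∧ p.2.sum ≤ Q)
    (ha : ∀ p ∈ S, ∀ i, |(a p i : ℝ)| ≤ (2 : ℝ) ^ h)
    (hex : ∃ m, 1 ≤ m ∧ m ≤ M ∧ gg Θ J S a m ≠ 0) :
    (((40 : ℝ) * M) ^ n)⁻¹ ≤ |∑ p ∈ S, (∑ i, (a p i : ℝ) * Θ i) * mz ((n + p.1) :: p.2)| := by
  obtain ⟨th, hth⟩ : ∃ th, th = 1 + ∑ i, |Θ i| := ⟨_, rfl⟩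
  have hl2a := Real.log_two_gt_d9
  have hl2b := Real.log_two_lt_d9
  have hA0 : 0 < A := by linarith
  obtain ⟨lA, hlA⟩ : ∃ lA, lA = Real.log A := ⟨_, rfl⟩
  have hlA0 : 0 ≤ lA := by rw [hlA]; exact Real.log_nonneg hA1
  have hth1 : 1 ≤ th := by
    have : 0 ≤ ∑ i, |Θ i| := sum_nonneg fun i _ => abs_nonneg _
    linarith
  have hlth : Real.log th ≤ Real.log 2 + lA := by
    rw [hlA, ← Real.log_mul (by norm_num) (by positivity)]
    exact Real.log_le_log (by linarith) (by linarith)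
  have hlc : -lA ≤ Real.log c0 := by
    have h1 := Real.log_le_log (by positivity) hcA
    rw [Real.log_inv] at h1
    rw [hlA]
    linarith
  have hκ : (0 : ℝ) ≤ κ := Nat.cast_nonneg κ
  have hM1 : (1 : ℝ) ≤ M := by
    have : 1 ≤ M := by omega
    exact_mod_cast this
  have hJ0 : (0 : ℝ) ≤ J := Nat.cast_nonneg J
  have hQ0 : (0 : ℝ) ≤ Q := Nat.cast_nonneg Q
  have hh0 : (0 : ℝ) ≤ h := Nat.cast_nonneg h
  have hJM' : (J : ℝ) + 1 ≤ M := by exact_mod_cast hJM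
  obtain ⟨l, hl⟩ : ∃ l, l = Real.log ((M : ℝ) + 1) := ⟨_, rfl⟩
  rw [← hl, ← hlA] at hn
  have hl1 : 1 / 2 ≤ l := by
    have : Real.log 2 ≤ l := by
      rw [hl]
      exact Real.log_le_log (by norm_num) (by linarith)
    linarith
  -- the quantities `E` and `W`
  obtain ⟨E, hE⟩ : ∃ E, E = M * (Q + l) + h := ⟨_, rfl⟩
  obtain ⟨W, hW⟩ : ∃ W, W = (κ + 1) * E + lA := ⟨_, rfl⟩
  have hn' : 40 * (M * W) ≤ n := by
    refine le_trans (le_of_eq ?_) hn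
    rw [hW, hE]
    ring
  have hMQ0 : 0 ≤ (M : ℝ) * Q := by positivity
  have hMl0 : 0 ≤ (M : ℝ) * l := by positivity
  have hE' : E = M * Q + M * l + h := by rw [hE]; ring
  have hQM : (Q : ℝ) ≤ M * Q := le_mul_of_one_le_left hQ0 hM1
  have hlM : l ≤ M * l := le_mul_of_one_le_left (by linarith) hM1
  have hE0 : 1 / 2 ≤ E := by linarith
  have hκE : 0 ≤ κ * E := mul_nonneg hκ (by linarith)
  have hW' : W = κ * E + E + lA := by rw [hW]; ring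
  have hMW : W ≤ M * W := le_mul_of_one_le_left (by linarith) hM1
  have hCW : 40 * W ≤ n := by linarith
  have hnQ : Q + 2 ≤ n := by
    have : (Q : ℝ) + 2 ≤ n := by linarith
    exact_mod_cast this
  obtain ⟨e, rfl⟩ := Nat.exists_eq_add_of_le hnQ
  -- the first nonzero coefficient
  classical
  obtain ⟨hx1, hxM, hxA⟩ := Nat.find_spec hex
  have hmin : ∀ y, 1 ≤ y → y < Nat.find hex → gg Θ J S a y = 0 := by
    intro y hy1 hy2
    by_contra hcon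
    exact Nat.find_min hex hy2 ⟨hy1, by omega, hcon⟩
  obtain ⟨x, hx⟩ : ∃ x, x = Nat.find hex := ⟨_, rfl⟩
  rw [← hx] at hx1 hxM hxA hmin
  have hx1' : (1 : ℝ) ≤ x := by exact_mod_cast hx1
  have hxM' : (x : ℝ) ≤ M := by exact_mod_cast hxM
  -- logarithms
  obtain ⟨lx, hlx⟩ : ∃ lx, lx = Real.log (x : ℝ) := ⟨_, rfl⟩
  obtain ⟨lx1, hlx1⟩ : ∃ lx1, lx1 = Real.log ((x : ℝ) + 1) := ⟨_, rfl⟩
  obtain ⟨lJ, hlJ⟩ : ∃ lJ, lJ = Real.log ((J : ℝ) + 1) := ⟨_, rfl⟩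
  obtain ⟨LL, hLL⟩ : ∃ LL, LL = Real.log (Nat.lcmUpto x : ℝ) := ⟨_, rfl⟩
  have hL0 : (1 : ℝ) ≤ (Nat.lcmUpto x : ℝ) := by exact_mod_cast Nat.lcmUpto_pos x
  have b1 : 0 ≤ lx := by rw [hlx]; exact Real.log_nonneg hx1'
  have b2 : lx ≤ l := by rw [hlx, hl]; exact Real.log_le_log (by linarith) (by linarith)
  have b3 : lx ≤ M := by
    have := Real.log_le_sub_one_of_pos (show (0 : ℝ) < x by linarith)
    rw [hlx]
    linarith
  have b4 : 0 ≤ lx1 := by rw [hlx1]; exact Real.log_nonneg (by linarith)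
  have b5 : lx1 ≤ l := by rw [hlx1, hl]; exact Real.log_le_log (by linarith) (by linarith)
  have b6 : lx1 ≤ M := by
    have := Real.log_le_sub_one_of_pos (show (0 : ℝ) < x + 1 by linarith)
    rw [hlx1]
    linarith
  have b7 : 0 ≤ lJ := by rw [hlJ]; exact Real.log_nonneg (by linarith)
  have b8 : lJ ≤ l := by rw [hlJ, hl]; exact Real.log_le_log (by linarith) (by linarith)
  have b9 : 0 ≤ LL := by rw [hLL]; exact Real.log_nonneg hL0
  have b10 : LL ≤ 6 * M := by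
    have := log_lcm x
    rw [hLL]
    linarith
  have b11 : 1 / (2 * (M : ℝ)) ≤ lx1 - lx := by
    have h1 := Real.one_sub_inv_le_log_of_pos (show (0 : ℝ) < ((x : ℝ) + 1) / x by positivity)
    rw [Real.log_div (by positivity) (by positivity), inv_div] at h1
    have h2 : 1 - (x : ℝ) / (x + 1) = 1 / (x + 1) := by
      field_simp
      ring
    rw [h2] at h1
    have h3 : 1 / (2 * (M : ℝ)) ≤ 1 / ((x : ℝ) + 1) :=
      one_div_le_one_div_of_le (by positivity) (by linarith)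
    rw [hlx1, hlx]
    linarith
  have c1 : (Q : ℝ) * LL ≤ 6 * (M * Q) := by
    calc (Q : ℝ) * LL ≤ Q * (6 * M) := mul_le_mul_of_nonneg_left b10 hQ0
      _ = _ := by ring
  have c2 : (h : ℝ) * Real.log 2 ≤ h := by nlinarith
  have c3 : (Q : ℝ) * Real.log 2 ≤ M * Q := by nlinarith
  have c4 : lJ + J * lx ≤ M * l := by
    calc lJ + J * lx ≤ l + J * l := add_le_add b8 (mul_le_mul_of_nonneg_left b2 hJ0)
      _ = (J + 1) * l := by ring
      _ ≤ M * l := mul_le_mul_of_nonneg_right hJM' (by linarith)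
  have c5 : (Q : ℝ) * lx ≤ M * Q := by
    calc (Q : ℝ) * lx ≤ Q * M := mul_le_mul_of_nonneg_left b3 hQ0
      _ = _ := by ring
  have c6 : (Q : ℝ) * lx1 ≤ M * Q := by
    calc (Q : ℝ) * lx1 ≤ Q * M := mul_le_mul_of_nonneg_left b6 hQ0
      _ = _ := by ring
  have c7 : (J : ℝ) * lx ≤ M * l := by linarith
  -- lower bound for the coefficient
  obtain ⟨g, hg⟩ : ∃ g, g = |gg Θ J S a x| := ⟨_, rfl⟩
  have hg0 : 0 < g := by rw [hg]; exact abs_pos.2 hxA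
  have hlow : -lA - (8 * (κ * E) + 6 * E) ≤ Real.log g := by
    have h1 := gg_low hMs (h := h) hS ha hx1 hxA
    rw [← hg] at h1
    have h2 := Real.log_le_log (by positivity) h1
    rw [Real.log_div hc0.ne' (by positivity), Real.log_mul (by positivity) (by positivity),
      Real.log_pow, Real.log_mul (by positivity) (by positivity),
      Real.log_mul (by positivity) (by positivity), Real.log_mul (by positivity) (by positivity),
      Real.log_mul (by positivity) (by positivity), Real.log_pow, Real.log_pow, Real.log_pow,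
      Real.log_pow, ← hLL, ← hlx, ← hlJ] at h2
    push_cast at h2
    have h3 : (Q : ℝ) * LL + (h * Real.log 2 + (lJ + Q * Real.log 2) + (J + Q) * lx) ≤ 8 * E := by
      have : ((J : ℝ) + Q) * lx = J * lx + Q * lx := by ring
      rw [this, hE']
      linarith
    have h4 : (κ : ℝ) * ((Q : ℝ) * LL + (h * Real.log 2 + (lJ + Q * Real.log 2) + (J + Q) * lx)) ≤
        κ * (8 * E) := mul_le_mul_of_nonneg_left h3 hκ
    have h6 : 8 * ((κ : ℝ) * E) = κ * (8 * E) := by ring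
    rw [h6]
    linarith
  push_cast at hn' hCW
  -- the numerical condition
  have hlog4 : Real.log 4 = 2 * Real.log 2 := by
    rw [show (4 : ℝ) = 2 ^ 2 by norm_num, Real.log_pow]
    norm_num
  have hdiff : 20 * W ≤ ((Q : ℝ) + 2 + e) * (lx1 - lx) := by
    have h1 : 40 * (M * W) * (1 / (2 * (M : ℝ))) ≤ ((Q : ℝ) + 2 + e) * (lx1 - lx) := by
      refine mul_le_mul hn' b11 (by positivity) (by positivity)
    refine le_trans (le_of_eq ?_) h1
    field_simp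
    ring
  have hnum : 4 * (th * 2 ^ h * (((J : ℝ) + 1) * 2 ^ Q)) * (x : ℝ) ^ (Q + 2 + e + J) ≤
      g * ((x : ℝ) + 1) ^ e := by
    rw [← Real.log_le_log_iff (by positivity) (by positivity)]
    rw [Real.log_mul (by positivity) (by positivity), Real.log_mul (by norm_num) (by positivity),
      Real.log_mul (by positivity) (by positivity), Real.log_mul (by positivity) (by positivity),
      Real.log_mul (by positivity) (by positivity), Real.log_mul (by positivity) (by positivity),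
      Real.log_pow, Real.log_pow, Real.log_pow, Real.log_pow, ← hlx, ← hlx1, ← hlJ, hlog4]
    push_cast
    have e1 : ((Q : ℝ) + 2 + e + J) * lx = (Q + 2 + e) * lx + J * lx := by ring
    have e2 : ((Q : ℝ) + 2 + e) * (lx1 - lx) = (Q * lx1 + 2 * lx1 + e * lx1) - (Q + 2 + e) * lx := by
      ring
    rw [e1]
    rw [e2] at hdiff
    linarith
  have hG : 0 ≤ th * 2 ^ h * (((J : ℝ) + 1) * 2 ^ Q) := by positivity
  have hmain := main_low (g := gg Θ J S a) (e := e) hG (fun m hm => by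
    rw [hth]
    exact gg_le Θ hS ha hm) hx1 hmin (by rw [← hg]; exact hnum)
  rw [← hg] at hmain
  rw [F_eq Θ hnQ a hS]
  refine le_trans ?_ hmain
  -- the final comparison
  rw [← Real.log_le_log_iff (by positivity) (by positivity)]
  rw [Real.log_inv, Real.log_pow, Real.log_mul (by positivity) (by positivity),
    Real.log_div hg0.ne' (by positivity), Real.log_mul (by norm_num) (by positivity),
    Real.log_pow, ← hlx]
  push_cast
  have hlC : 1 ≤ Real.log 40 := by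
    rw [Real.le_log_iff_exp_le (by norm_num)]
    have := Real.exp_one_lt_d9
    linarith
  have hlMx : lx ≤ Real.log M := by
    rw [hlx]
    exact Real.log_le_log (by linarith) hxM'
  have hn0 : (0 : ℝ) ≤ (Q : ℝ) + 2 + e := by positivity
  have f1 : ((Q : ℝ) + 2 + e) * 1 ≤ (Q + 2 + e) * Real.log 40 := mul_le_mul_of_nonneg_left hlC hn0
  have f2 : ((Q : ℝ) + 2 + e) * lx ≤ (Q + 2 + e) * Real.log M :=
    mul_le_mul_of_nonneg_left hlMx hn0
  have f3 : ((Q : ℝ) + 2 + e + J) * lx = (Q + 2 + e) * lx + J * lx := by ring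
  rw [f3, mul_add]
  linarith

theorem t_core2 : CORE2 :=
  ⟨40, by norm_num, fun Θ c0 κ hc0 hMs A hA1 hcA hTA n J Q h M hJM hn S a hS ha hex =>
    core40 Θ c0 κ hc0 hMs A hA1 hcA hTA n J Q h M hJM hn S a hS ha hex⟩

end Pool.Agent.NH24.OL
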