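import Pool.Agent.NH24.OL.Ze
import Pool.Agent.NH24.OL.Core

/-!
# Multiple zeta values `ζ(n + j, w)` with short words `w` of all depths: the theorem
-/

set_option autoImplicit false

namespace Pool.Agent.NH24.OL

open Finset Polynomial Pool.Agent.Y760.ZG

lemma lev_sum : Lev 1 {w : List ℕ | ∀ x ∈ w, 1 ≤ x} List.sum where
  nil := by simp
  nil0 := rfl
  tail := fun s l h x hx => h x (List.mem_cons_of_mem _ hx)
  pos := fun s l h => h s List.mem_cons_self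
  step := fun s l _ => by
    rw [List.sum_cons]
    omega

lemma lev_length (Q : ℕ) : Lev Q {w : List ℕ | ∀ x ∈ w, 1 ≤ x ∧ x ≤ Q} List.length where
  nil := by simp
  nil0 := rfl
  tail := fun s l h x hx => h x (List.mem_cons_of_mem _ hx)
  pos := fun s l h => (h s List.mem_cons_self).1
  step := fun s l h => by
    rw [List.length_cons, Nat.mul_succ]
    exact Nat.add_le_add_left (h s List.mem_cons_self).2 _

/-- the function -/
noncomputable def FS (J : ℕ) (S : Finset (ℕ × List ℕ)) (b : ℕ × List ℕ → ℝ) (m : ℕ) : ℝ :=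
  ∑ p ∈ S, b p * ((m : ℝ) ^ (J - p.1) * hr p.2 m)

lemma FS_mem {δ : ℕ} {G : Set (List ℕ)} {lev : List ℕ → ℕ} {c J : ℕ} {S : Finset (ℕ × List ℕ)}
    (hS : ∀ p ∈ S, p.2 ∈ G ∧ lev p.2 ≤ c) (b : ℕ × List ℕ → ℝ) : FS J S b ∈ TT δ G lev 0 c (J + 1) := by
  have h1 : FS J S b = ∑ p ∈ S, fun m : ℕ => b p * ((m : ℝ) ^ (J - p.1) * hr p.2 m) := by
    funext m
    rw [FS, Finset.sum_apply]
  rw [h1]
  refine Submodule.sum_mem _ fun p hp => Submodule.subset_span ⟨p.2, fun m => b p * (m : ℝ) ^ (J - p.1),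
    (hS p hp).1, (hS p hp).2, ⟨C (b p) * X ^ (J - p.1), ?_, fun m _ => ?_⟩, fun m _ => ?_⟩
  · refine lt_of_le_of_lt (degree_C_mul_X_pow_le _ _) ?_
    have : J - p.1 < δ * (c - lev p.2) * 0 + (J + 1) := by omega
    exact_mod_cast this
  · rw [rf, Finset.range_zero, Finset.prod_empty, one_pow, mul_one, eval_mul, eval_C, eval_pow, eval_X]
  · ring

/-- the number of values -/
def MM (J Q d : ℕ) : ℕ := (J + 1) * min (2 ^ Q) ((Q + 1) ^ d)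

lemma FS_zero {J Q d : ℕ} {S : Finset (ℕ × List ℕ)}
    (hS : ∀ p ∈ S, p.1 ≤ J ∧ (∀ x ∈ p.2, 1 ≤ x) ∧ p.2.sum ≤ Q ∧ p.2.length ≤ d) (b : ℕ × List ℕ → ℝ)
    (h0 : ∀ m, 1 ≤ m → m ≤ MM J Q d → FS J S b m = 0) : ∀ m, 1 ≤ m → FS J S b m = 0 := by
  unfold MM at h0
  have key1 : (∀ m, 1 ≤ m → m ≤ (J + 1) * 2 ^ Q → FS J S b m = 0) → ∀ m, 1 ≤ m → FS J S b m = 0 := by
    intro h1
    have hmem : FS J S b ∈ TT 1 {w : List ℕ | ∀ x ∈ w, 1 ≤ x} List.sum 0 Q (J + 1) := by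
      refine FS_mem ?_ b
      intro p hp
      exact ⟨(hS p hp).2.1, (hS p hp).2.2.1⟩
    refine zero_est lev_sum le_rfl Q 0 (J + 1) _ hmem fun m hm hm2 => h1 m hm ?_
    rw [Nat.zero_add, Nat.add_zero] at hm2
    exact hm2
  rcases min_choice (2 ^ Q) ((Q + 1) ^ d) with h | h
  · rw [h] at h0
    exact key1 h0
  · rcases Nat.eq_zero_or_pos Q with hQ | hQ
    · subst hQ
      refine key1 fun m hm hm2 => h0 m hm ?_
      simpa using hm2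
    · rw [h] at h0
      have hmem : FS J S b ∈ TT Q {w : List ℕ | ∀ x ∈ w, 1 ≤ x ∧ x ≤ Q} List.length 0 d (J + 1) := by
        refine FS_mem ?_ b
        intro p hp
        exact ⟨fun x hx => ⟨(hS p hp).2.1 x hx,
          (List.single_le_sum (fun _ _ => Nat.zero_le _) x hx).trans (hS p hp).2.2.1⟩, (hS p hp).2.2.2⟩
      refine zero_est (lev_length Q) hQ d 0 (J + 1) _ hmem fun m hm hm2 => h0 m hm ?_
      rw [Nat.zero_add, Nat.add_zero, Nat.add_comm 1 Q] at hm2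
      exact hm2

lemma FS_ne (hI : IND) {J Q d : ℕ} {S : Finset (ℕ × List ℕ)}
    (hS : ∀ p ∈ S, p.1 ≤ J ∧ (∀ x ∈ p.2, 1 ≤ x) ∧ p.2.sum ≤ Q ∧ p.2.length ≤ d) (b : ℕ × List ℕ → ℝ)
    (hb : ∃ p ∈ S, b p ≠ 0) : ∃ m, 1 ≤ m ∧ m ≤ MM J Q d ∧ FS J S b m ≠ 0 := by
  classical
  by_contra hcon
  push Not at hcon
  have h1 := FS_zero hS b hcon
  obtain ⟨p0, hp0, hb0⟩ := hb
  obtain ⟨P, hP⟩ : ∃ P : List ℕ → ℝ[X], P = fun w => ∑ p ∈ S with p.2 = w, C (b p) * X ^ (J - p.1) := ⟨_, rfl⟩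
  have h2 := hI (S.image Prod.snd) P (fun w hw => by
    rw [mem_image] at hw
    obtain ⟨p, hp, rfl⟩ := hw
    exact (hS p hp).2.1) (fun m hm => by
    rw [← h1 m hm, FS, ← Finset.sum_fiberwise_of_maps_to (t := S.image Prod.snd) (g := Prod.snd)
      (fun p hp => mem_image_of_mem _ hp)]
    refine sum_congr rfl fun w _ => ?_
    rw [hP]
    simp only
    rw [eval_finsetSum, sum_mul]
    refine sum_congr rfl fun p hp => ?_
    rw [mem_filter] at hp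
    rw [eval_mul, eval_C, eval_pow, eval_X, hp.2]
    ring) p0.2 (mem_image_of_mem _ hp0)
  apply hb0
  have h3 : (P p0.2).coeff (J - p0.1) = b p0 := by
    rw [hP]
    simp only
    rw [finsetSum_coeff, Finset.sum_eq_single p0]
    · rw [coeff_C_mul_X_pow, if_pos rfl]
    · intro p hp hne
      rw [mem_filter] at hp
      rw [coeff_C_mul_X_pow, if_neg]
      intro h4
      apply hne
      have h5 := (hS p hp.1).1
      have h6 := (hS p0 hp0).1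
      exact Prod.ext (by omega) hp.2
    · intro h4
      exact absurd (by rw [mem_filter]; exact ⟨hp0, rfl⟩) h4
  rw [← h3, h2, coeff_zero]

/-- **the explicit theorem** -/
theorem expl (hI : IND) {r : ℕ} {Θ : Fin r → ℝ} {c0 : ℝ} (hc0 : 0 < c0) {κ0 : ℕ} (hΘ : Ms Θ c0 κ0) {A : ℝ}
    (hA1 : 1 ≤ A) (hcA : c0⁻¹ ≤ A) (hTA : ∑ i, |Θ i| ≤ A) {n J Q d h M : ℕ} (hM : M = MM J Q d)
    (hn : (40 : ℝ) * ((κ0 + 1) * ((M : ℝ) ^ 2 * (Q + Real.log (M + 1)) + M * h) + M * Real.log A) ≤ n)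
    {S : Finset (ℕ × List ℕ)}
    (hS : ∀ p ∈ S, p.1 ≤ J ∧ (∀ x ∈ p.2, 1 ≤ x) ∧ p.2.sum ≤ Q ∧ p.2.length ≤ d)
    {a : ℕ × List ℕ → Fin r → ℤ} (ha : ∀ p ∈ S, ∀ i, |(a p i : ℝ)| ≤ (2 : ℝ) ^ h) (hane : ∃ p ∈ S, a p ≠ 0) :
    (((40 : ℝ) * M) ^ n)⁻¹ ≤ |∑ p ∈ S, (∑ i, (a p i : ℝ) * Θ i) * mz ((n + p.1) :: p.2)| := by
  have hJM : J + 1 ≤ M := by
    rw [hM, MM]
    exact Nat.le_mul_of_pos_right _ (lt_min (by positivity) (by positivity))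
  obtain ⟨m, hm1, hmM, hm0⟩ : ∃ m, 1 ≤ m ∧ m ≤ M ∧ gg Θ J S a m ≠ 0 := by
    obtain ⟨p, hp, hp0⟩ := hane
    obtain ⟨m, h4, h5, h6⟩ := FS_ne hI hS (fun p => ∑ i, (a p i : ℝ) * Θ i) ⟨p, hp, by
      have h7 := hΘ (a p) hp0 (2 ^ h) (one_le_pow₀ one_le_two) (ha p hp)
      intro h8
      rw [h8, abs_zero] at h7
      have : 0 < c0 / (2 ^ h) ^ κ0 := by positivity
      linarith⟩
    exact ⟨m, h4, hM ▸ h5, h6⟩
  exact core40 Θ c0 κ0 hc0 hΘ A hA1 hcA hTA n J Q h M hJM hn S a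
    (fun p hp => ⟨(hS p hp).1, (hS p hp).2.1, (hS p hp).2.2.1⟩) ha ⟨m, hm1, hmM, hm0⟩

end Pool.Agent.NH24.OL
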