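import Pool.Agent.NH24.OL.Fin
import Pool.Agent.NH83.EM.D
import Pool.Agent.R404.MZ.Asy

/-!
# Multiple zeta values `ζ(n + j, w)` with short words `w` of all depths: coefficients in `ℤ[4 π²]`
-/

set_option autoImplicit false

namespace Pool.Agent.NH24.OL

open Finset Pool.Agent.Y760.ZG Filter
open Pool.Agent.NH83.EM (Th)

/-- **coefficients of growing degree in `π²`** -/
theorem growE (hI : IND) (t γ τ ε κ K : ℝ) (ht0 : 0 < t) (ht : t < 1 / 2) (hγ0 : 0 < γ) (hγ : γ + t < 1)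
    (hτ : 0 < τ) (hε : t < ε) :
    ∃ c : ℝ, 0 < c ∧ ∃ n0 : ℕ, ∀ n : ℕ, n0 ≤ n → ∀ E : ℕ, (E : ℝ) ≤ c * Real.log n →
      ∀ J Q d M : ℕ, M = MM J Q d → (M : ℝ) ≤ (n : ℝ) ^ t → (M : ℝ) ^ 2 * Q ≤ (n : ℝ) ^ (1 - τ) →
      ∀ S : Finset (ℕ × List ℕ),
      (∀ p ∈ S, p.1 ≤ J ∧ (∀ x ∈ p.2, 1 ≤ x) ∧ p.2.sum ≤ Q ∧ p.2.length ≤ d) →
      ∀ a : ℕ × List ℕ → Fin (E + 1) → ℤ, (∀ p ∈ S, ∀ i, |(a p i : ℝ)| ≤ (2 : ℝ) ^ ((n : ℝ) ^ γ)) →
      (∃ p ∈ S, a p ≠ 0) →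
      ∀ H : Finset (List ℕ), (∀ h ∈ H, (∀ m ∈ h, 1 ≤ m) ∧ (∀ x ∈ h.head?, 2 ≤ x) ∧ (h.sum : ℝ) ≤ κ * n ∧
        ε * n ≤ Pool.Agent.Y777.AM.ht h) → ∀ b : List ℕ → ℝ, (∀ h ∈ H, |b h| ≤ K ^ n) →
      ((n : ℝ) ^ (ε * n))⁻¹ <
        |∑ p ∈ S, (∑ i, (a p i : ℝ) * Th E i) * mz ((n + p.1) :: p.2) - ∑ h ∈ H, b h * mz h| := by
  obtain ⟨s, hs⟩ : ∃ s, s = min τ (min (1 - 2 * t) (1 - γ - t)) / 4 := ⟨_, rfl⟩
  have hs0 : 0 < s := by
    rw [hs]
    have : 0 < min τ (min (1 - 2 * t) (1 - γ - t)) := lt_min hτ (lt_min (by linarith) (by linarith))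
    linarith
  have hs1 : 4 * s ≤ τ := by
    rw [hs]
    have := min_le_left τ (min (1 - 2 * t) (1 - γ - t))
    linarith
  have hs2 : 4 * s ≤ 1 - 2 * t := by
    rw [hs]
    have := (min_le_right τ (min (1 - 2 * t) (1 - γ - t))).trans (min_le_left _ _)
    linarith
  have hs3 : 4 * s ≤ 1 - γ - t := by
    rw [hs]
    have := (min_le_right τ (min (1 - 2 * t) (1 - γ - t))).trans (min_le_right _ _)
    linarith
  obtain ⟨kp, c0, hc0, hmeas, c, hc, N1, h1⟩ := Pool.Agent.NH83.EM.cond (s := s) (t := s) hs0 hs0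
  obtain ⟨N2, h2⟩ := Pool.Agent.R404.MZ.asyH κ K ((t + ε) / 2) ε (by linarith) (by linarith)
  have hk : Tendsto (fun k : ℕ => (k : ℝ)) atTop atTop := tendsto_natCast_atTop_atTop
  have ev1 : ∀ᶠ n : ℕ in atTop, (400 : ℝ) ≤ (n : ℝ) ^ s :=
    ((tendsto_rpow_atTop hs0).comp hk).eventually_ge_atTop _
  have ev2 : ∀ᶠ n : ℕ in atTop, Real.log (n + 1) ≤ (n : ℝ) ^ s := by
    have h1 := (isLittleO_log_rpow_atTop (r := s) hs0).bound (show (0 : ℝ) < 1 / 2 by norm_num)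
    filter_upwards [hk.eventually h1, eventually_ge_atTop 2] with n h3 h4
    have h5 : (2 : ℝ) ≤ n := by exact_mod_cast h4
    rw [Real.norm_of_nonneg (Real.log_nonneg (by linarith)), Real.norm_of_nonneg (by positivity)] at h3
    have h6 : Real.log ((n : ℝ) + 1) ≤ 2 * Real.log n := by
      rw [← Real.log_rpow (by linarith)]
      refine Real.log_le_log (by linarith) ?_
      norm_num
      nlinarith
    linarith
  have ev3 : ∀ᶠ n : ℕ in atTop, (80 : ℝ) ≤ (n : ℝ) ^ ((ε - t) / 2) :=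
    ((tendsto_rpow_atTop (by linarith)).comp hk).eventually_ge_atTop _
  obtain ⟨N3, h3⟩ := eventually_atTop.1 (ev1.and (ev2.and ev3))
  refine ⟨c, hc, max (max N1 N2) (max N3 2), fun n hn E hE J Q d M hM hMt hMQ S hS a ha hane H hH b hb => ?_⟩
  have hn2 : 2 ≤ n := by omega
  have hn2' : (2 : ℝ) ≤ n := by exact_mod_cast hn2
  have hn0 : (0 : ℝ) < n := by linarith
  have hn1 : (1 : ℝ) ≤ n := by linarith
  obtain ⟨g1, g2, g3⟩ := h3 n (by omega)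
  obtain ⟨g4, g5⟩ := h1 n (by omega) E hE
  have hM1 : (1 : ℝ) ≤ M := by
    have : 1 ≤ M := by
      rw [hM, MM]
      exact Nat.mul_pos (by omega) (lt_min (by positivity) (by positivity))
    exact_mod_cast this
  -- the constant A
  obtain ⟨A, hA⟩ : ∃ A : ℝ, A = (2 : ℝ) ^ ((n : ℝ) ^ s) := ⟨_, rfl⟩
  rw [← hA] at g5
  have hΘ : Ms (Th E) (c0 E) (kp E) := hmeas E
  have hS0 : 0 ≤ ∑ i, |Th E i| := sum_nonneg fun _ _ => abs_nonneg _
  have hc1 : c0 E ≤ 1 := by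
    have h4 := hmeas E (fun i => if i = 0 then 1 else 0) (by
      intro h
      have := congrFun h 0
      simp at this) 1 le_rfl (fun i => by
      split_ifs <;> simp)
    rw [one_pow, div_one] at h4
    refine h4.trans (le_of_eq ?_)
    have : ∑ i : Fin (E + 1), (((if i = 0 then 1 else 0 : ℤ)) : ℝ) * Th E i = 1 := by
      rw [Finset.sum_eq_single (0 : Fin (E + 1))]
      · simp [Th]
      · intro i _ hi
        simp [hi]
      · intro h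
        exact absurd (mem_univ _) h
    rw [this, abs_one]
  have hcE := hc0 E
  have hcA : (c0 E)⁻¹ ≤ A := by
    refine le_trans ?_ g5
    rw [inv_eq_one_div]
    exact div_le_div_of_nonneg_right (by linarith) hcE.le
  have hTA : ∑ i, |Th E i| ≤ A := by
    refine le_trans ?_ g5
    rw [le_div_iff₀ hcE]
    nlinarith
  have hA1 : 1 ≤ A := by
    rw [hA]
    exact Real.one_le_rpow one_le_two (by positivity)
  -- the coefficients
  obtain ⟨h, hh⟩ : ∃ h : ℕ, h = ⌈(n : ℝ) ^ γ⌉₊ := ⟨_, rfl⟩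
  have hh1 : (n : ℝ) ^ γ ≤ h := by rw [hh]; exact Nat.le_ceil _
  have hγ1 : (1 : ℝ) ≤ (n : ℝ) ^ γ := Real.one_le_rpow hn1 hγ0.le
  have hh2 : (h : ℝ) ≤ 2 * (n : ℝ) ^ γ := by
    have := (Nat.ceil_lt_add_one (by positivity : 0 ≤ (n : ℝ) ^ γ)).le
    rw [hh]
    linarith
  have ha' : ∀ p ∈ S, ∀ i, |(a p i : ℝ)| ≤ (2 : ℝ) ^ h := by
    intro p hp i
    refine (ha p hp i).trans ?_
    rw [← Real.rpow_natCast]
    exact Real.rpow_le_rpow_of_exponent_le one_le_two hh1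
  -- the condition
  have hlogA : Real.log A ≤ (n : ℝ) ^ s := by
    rw [hA, Real.log_rpow two_pos]
    have h4 := Real.log_two_lt_d9
    have h5 : (0 : ℝ) < (n : ℝ) ^ s := by positivity
    nlinarith
  have hMn : (M : ℝ) ≤ n := by
    refine hMt.trans ?_
    calc (n : ℝ) ^ t ≤ (n : ℝ) ^ (1 : ℝ) := Real.rpow_le_rpow_of_exponent_le hn1 (by linarith)
      _ = n := Real.rpow_one _
  have hlogM : Real.log (M + 1) ≤ (n : ℝ) ^ s := by
    refine le_trans (Real.log_le_log (by linarith) (by linarith)) g2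
  have hlogM0 : 0 ≤ Real.log (M + 1) := Real.log_nonneg (by linarith)
  have pw : ∀ x y : ℝ, (n : ℝ) ^ x * (n : ℝ) ^ y = (n : ℝ) ^ (x + y) := fun x y => (Real.rpow_add hn0 x y).symm
  have mono : ∀ x : ℝ, x ≤ 1 - 2 * s → (n : ℝ) ^ x ≤ (n : ℝ) ^ (1 - 2 * s) := fun x hx =>
    Real.rpow_le_rpow_of_exponent_le hn1 hx
  obtain ⟨Z, hZ⟩ : ∃ Z : ℝ, Z = (n : ℝ) ^ (1 - 2 * s) := ⟨_, rfl⟩
  have hZ0 : 0 < Z := by rw [hZ]; positivity
  have e1 : (M : ℝ) ^ 2 * Q ≤ Z := hMQ.trans (by rw [hZ]; exact mono _ (by linarith))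
  have e2 : (M : ℝ) ^ 2 * Real.log (M + 1) ≤ Z := by
    calc (M : ℝ) ^ 2 * Real.log (M + 1) ≤ ((n : ℝ) ^ t) ^ 2 * (n : ℝ) ^ s := by gcongr
      _ = (n : ℝ) ^ (2 * t + s) := by
          rw [← Real.rpow_natCast, ← Real.rpow_mul hn0.le, pw]
          congr 1
          push_cast
          ring
      _ ≤ Z := by rw [hZ]; exact mono _ (by linarith)
  have e3 : (M : ℝ) * h ≤ 2 * Z := by
    calc (M : ℝ) * h ≤ (n : ℝ) ^ t * (2 * (n : ℝ) ^ γ) := by gcongr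
      _ = 2 * (n : ℝ) ^ (t + γ) := by rw [← pw]; ring
      _ ≤ 2 * Z := by
          have := mono (t + γ) (by linarith)
          rw [hZ]
          linarith
  have e4 : (M : ℝ) * Real.log A ≤ Z := by
    calc (M : ℝ) * Real.log A ≤ (n : ℝ) ^ t * (n : ℝ) ^ s := by
          have := Real.log_nonneg hA1
          gcongr
      _ = (n : ℝ) ^ (t + s) := pw _ _
      _ ≤ Z := by rw [hZ]; exact mono _ (by linarith)
  have e5 : (n : ℝ) = (n : ℝ) ^ s * ((n : ℝ) ^ s * Z) := by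
    rw [hZ, pw, pw]
    conv_lhs => rw [← Real.rpow_one (n : ℝ)]
    congr 1
    ring
  have hcond : (40 : ℝ) * ((kp E + 1) * ((M : ℝ) ^ 2 * (Q + Real.log (M + 1)) + M * h) + M * Real.log A) ≤ n := by
    have e6 : (M : ℝ) ^ 2 * (Q + Real.log (M + 1)) + M * h ≤ 4 * Z := by
      rw [mul_add]
      linarith
    have e7 : (kp E : ℝ) + 1 ≤ 2 * (n : ℝ) ^ s := by linarith
    have e8 : 0 ≤ (M : ℝ) ^ 2 * (Q + Real.log (M + 1)) + M * h := by positivity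
    have e9 : ((kp E : ℝ) + 1) * ((M : ℝ) ^ 2 * (Q + Real.log (M + 1)) + M * h) ≤ 2 * (n : ℝ) ^ s * (4 * Z) :=
      mul_le_mul e7 e6 e8 (by positivity)
    have e10 : Z ≤ (n : ℝ) ^ s * Z := by nlinarith
    have e11 : 0 < (n : ℝ) ^ s * Z := by positivity
    have e12 : 400 * ((n : ℝ) ^ s * Z) ≤ (n : ℝ) ^ s * ((n : ℝ) ^ s * Z) := mul_le_mul_of_nonneg_right g1 e11.le
    rw [← e5] at e12
    have e13 : 2 * (n : ℝ) ^ s * (4 * Z) = 8 * ((n : ℝ) ^ s * Z) := by ring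
    rw [e13] at e9
    linarith
  have hlow := expl hI hcE hΘ hA1 hcA hTA hM hcond hS ha' hane
  have hhigh := h2 n (by omega) H hH b hb
  obtain ⟨F, hF⟩ : ∃ F, F = ∑ p ∈ S, (∑ i, (a p i : ℝ) * Th E i) * mz ((n + p.1) :: p.2) := ⟨_, rfl⟩
  rw [← hF] at hlow ⊢
  -- comparison
  obtain ⟨δ', hδ'⟩ : ∃ δ', δ' = (t + ε) / 2 := ⟨_, rfl⟩
  rw [← hδ'] at hhigh
  have f1 : 80 * (M : ℝ) ≤ (n : ℝ) ^ δ' := by
    calc 80 * (M : ℝ) ≤ (n : ℝ) ^ ((ε - t) / 2) * (n : ℝ) ^ t := by gcongr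
      _ = (n : ℝ) ^ δ' := by
          rw [pw, hδ']
          congr 1
          ring
  have f2 : ((n : ℝ) ^ (δ' * n))⁻¹ ≤ ((80 * (M : ℝ)) ^ n)⁻¹ := by
    rw [Real.rpow_mul hn0.le, Real.rpow_natCast]
    exact inv_anti₀ (by positivity) (pow_le_pow_left₀ (by positivity) f1 n)
  have f3 : ((80 * (M : ℝ)) ^ n)⁻¹ * 2 ≤ ((40 * (M : ℝ)) ^ n)⁻¹ / 2 := by
    have f4 : (80 * (M : ℝ)) ^ n = 2 ^ n * (40 * M) ^ n := by
      rw [← mul_pow]
      congr 1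
      ring
    have f5 : (4 : ℝ) ≤ 2 ^ n := by
      calc (4 : ℝ) = 2 ^ 2 := by norm_num
        _ ≤ 2 ^ n := pow_le_pow_right₀ one_le_two hn2
    have f6 : 0 < (40 * (M : ℝ)) ^ n := by positivity
    rw [f4, mul_inv, inv_mul_eq_div, div_mul_eq_mul_div, div_le_div_iff₀ (by positivity) two_pos]
    have f7 : 0 < ((40 * (M : ℝ)) ^ n)⁻¹ := by positivity
    nlinarith
  have f8 : ((n : ℝ) ^ (ε * n))⁻¹ < ((n : ℝ) ^ (δ' * n))⁻¹ := by
    refine inv_strictAnti₀ (by positivity) ?_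
    refine Real.rpow_lt_rpow_of_exponent_lt (by linarith) ?_
    have : δ' < ε := by rw [hδ']; linarith
    nlinarith
  have f9 : 0 < ((40 * (M : ℝ)) ^ n)⁻¹ := by positivity
  have f10 : 0 < ((n : ℝ) ^ (δ' * n))⁻¹ := by positivity
  have f11 := abs_sub_abs_le_abs_sub F (∑ h ∈ H, b h * mz h)
  linarith

end Pool.Agent.NH24.OL
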