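import Pool.Agent.Y760.ZG.Mz

/-!
# Multiple zeta values `ζ(n + j, w)` with short words `w` of all depths: statements

`hr w m` is the sum of `∏ n_i ^ (-w_i)` over `m > n_1 > ... > n_r ≥ 1`.
-/

set_option autoImplicit false

namespace Pool.Agent.NH24.OL

open Finset Pool.Agent.Y760.ZG

/-- a measure of linear independence -/
def Ms {r : ℕ} (Θ : Fin r → ℝ) (c0 : ℝ) (κ : ℕ) : Prop :=
  ∀ P : Fin r → ℤ, P ≠ 0 → ∀ H : ℝ, 1 ≤ H → (∀ i, |(P i : ℝ)| ≤ H) → c0 / H ^ κ ≤ |∑ i, (P i : ℝ) * Θ i|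

/-- linear independence of the truncated sums over the polynomials -/
def IND : Prop := ∀ (W : Finset (List ℕ)) (P : List ℕ → Polynomial ℝ), (∀ w ∈ W, ∀ x ∈ w, 1 ≤ x) →
  (∀ m : ℕ, 1 ≤ m → ∑ w ∈ W, (P w).eval (m : ℝ) * hr w m = 0) → ∀ w ∈ W, P w = 0

/-- the sum of the coefficients of `m ^ (-n - J)` -/
noncomputable def gg {r : ℕ} (Θ : Fin r → ℝ) (J : ℕ) (S : Finset (ℕ × List ℕ)) (a : ℕ × List ℕ → Fin r → ℤ)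
    (m : ℕ) : ℝ :=
  ∑ p ∈ S, (∑ i, (a p i : ℝ) * Θ i) * ((m : ℝ) ^ (J - p.1) * hr p.2 m)

/-- the first nonzero coefficient dominates -/
def CORE : Prop := ∀ {r : ℕ} (Θ : Fin r → ℝ) (c0 : ℝ) (κ : ℕ), 0 < c0 → Ms Θ c0 κ → ∃ C : ℝ, 1 ≤ C ∧
  ∀ n J Q h M : ℕ, J + 1 ≤ M →
    C * ((M : ℝ) ^ 2 * (Q + Real.log (M + 1)) + M * h) ≤ n →
    ∀ (S : Finset (ℕ × List ℕ)) (a : ℕ × List ℕ → Fin r → ℤ),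
      (∀ p ∈ S, p.1 ≤ J ∧ (∀ x ∈ p.2, 1 ≤ x) ∧ p.2.sum ≤ Q) →
      (∀ p ∈ S, ∀ i, |(a p i : ℝ)| ≤ (2 : ℝ) ^ h) →
      (∃ m, 1 ≤ m ∧ m ≤ M ∧ gg Θ J S a m ≠ 0) →
      ((C * M) ^ n)⁻¹ ≤ |∑ p ∈ S, (∑ i, (a p i : ℝ) * Θ i) * mz ((n + p.1) :: p.2)|

end Pool.Agent.NH24.OL
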