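import Pool.Agent.NH24.OL.Stm

/-!
# Multiple zeta values `ζ(n + j, w)` with short words `w`: the analytic estimate, uniform in the measure
-/

set_option autoImplicit false

namespace Pool.Agent.NH24.OL

open Finset Pool.Agent.Y760.ZG

/-- the first nonzero coefficient dominates, the constant does not depend on the measure -/
def CORE2 : Prop := ∃ C : ℝ, 1 ≤ C ∧ ∀ {r : ℕ} (Θ : Fin r → ℝ) (c0 : ℝ) (κ : ℕ), 0 < c0 → Ms Θ c0 κ →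
  ∀ A : ℝ, 1 ≤ A → c0⁻¹ ≤ A → ∑ i, |Θ i| ≤ A → ∀ n J Q h M : ℕ, J + 1 ≤ M →
    C * ((κ + 1) * ((M : ℝ) ^ 2 * (Q + Real.log (M + 1)) + M * h) + M * Real.log A) ≤ n →
    ∀ (S : Finset (ℕ × List ℕ)) (a : ℕ × List ℕ → Fin r → ℤ),
      (∀ p ∈ S, p.1 ≤ J ∧ (∀ x ∈ p.2, 1 ≤ x) ∧ p.2.sum ≤ Q) →
      (∀ p ∈ S, ∀ i, |(a p i : ℝ)| ≤ (2 : ℝ) ^ h) →
      (∃ m, 1 ≤ m ∧ m ≤ M ∧ gg Θ J S a m ≠ 0) →
      ((C * M) ^ n)⁻¹ ≤ |∑ p ∈ S, (∑ i, (a p i : ℝ) * Θ i) * mz ((n + p.1) :: p.2)|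

end Pool.Agent.NH24.OL
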