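import Pool.Agent.NH24.OL.Stm

/-!
# Multiple zeta values `ζ(n + j, w)` with short words `w` of all depths: the zero estimate

If a combination of the functions `m ^ i * hr w m` (`i ≤ J`, `w` of weight at most `Q`) vanishes for
`1 ≤ m ≤ (J + 1) 2 ^ Q`, then it vanishes for all `m ≥ 1`. The number of these functions is `(J + 1) 2 ^ Q`.
-/

set_option autoImplicit false

namespace Pool.Agent.NH24.OL

open Finset Polynomial Pool.Agent.Y760.ZG

/-- `m (m + 1) ... (m + X - 1)` -/
noncomputable def rf (X m : ℕ) : ℝ := ∏ i ∈ range X, ((m : ℝ) + i)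

/-- the polynomial `X (X + 1) ... (X + n - 1)` -/
noncomputable def RF (n : ℕ) : ℝ[X] := ∏ i ∈ range n, (X + C (i : ℝ))

lemma RF_eval (n m : ℕ) : (RF n).eval (m : ℝ) = rf n m := by
  rw [RF, rf, eval_prod]
  exact prod_congr rfl fun i _ => by rw [eval_add, eval_X, eval_C]

lemma RF_monic (n : ℕ) : (RF n).Monic := monic_prod_of_monic _ _ fun i _ => monic_X_add_C _

lemma RF_deg (n : ℕ) : (RF n).natDegree = n := by
  rw [RF, natDegree_prod_of_monic _ _ fun i _ => monic_X_add_C _,
    sum_congr rfl fun (i : ℕ) _ => natDegree_X_add_C (i : ℝ)]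
  simp

lemma rf_pos (X : ℕ) {m : ℕ} (hm : 1 ≤ m) : 0 < rf X m := by
  unfold rf
  refine prod_pos fun i _ => ?_
  have : (1 : ℝ) ≤ m := by exact_mod_cast hm
  positivity

lemma rf_succ (X m : ℕ) : rf (X + 1) m = rf X m * (m + X) := by
  unfold rf
  rw [prod_range_succ]

lemma rf_succ' (X m : ℕ) : rf (X + 1) m = m * rf X (m + 1) := by
  unfold rf
  rw [prod_range_succ', Nat.cast_zero, add_zero, mul_comm]
  congr 1
  refine prod_congr rfl fun i _ => ?_
  push_cast
  ring

/-- rational functions with the denominator `(m (m + 1) ... (m + X - 1)) ^ a` and degree less than `e` -/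
def Rt (X a e : ℕ) (R : ℕ → ℝ) : Prop :=
  ∃ P : ℝ[X], P.degree < ((a * X + e : ℕ) : WithBot ℕ) ∧ ∀ m : ℕ, 1 ≤ m → R m * rf X m ^ a = P.eval (m : ℝ)

/-- the difference -/
def dl (F : ℕ → ℝ) : ℕ → ℝ := fun m => F (m + 1) - F m

lemma degree_lt_of_le {P : ℝ[X]} {a b : ℕ} (h : P.degree < (a : WithBot ℕ)) (hab : a ≤ b) :
    P.degree < (b : WithBot ℕ) := lt_of_lt_of_le h (by exact_mod_cast hab)

lemma degree_mul_lt {P Q : ℝ[X]} {a b : ℕ} (h : P.degree < (a : WithBot ℕ)) (hQ : Q.degree ≤ (b : WithBot ℕ)) :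
    (P * Q).degree < ((a + b : ℕ) : WithBot ℕ) := by
  rw [degree_mul]
  by_cases hP : P = 0
  · rw [hP, degree_zero, WithBot.bot_add]
    exact WithBot.bot_lt_coe _
  · rw [degree_eq_natDegree hP] at h ⊢
    by_cases hQ0 : Q = 0
    · rw [hQ0, degree_zero, WithBot.add_bot]
      exact WithBot.bot_lt_coe _
    · rw [degree_eq_natDegree hQ0] at hQ ⊢
      norm_cast at h hQ ⊢
      omega

lemma degree_comp_lt {P : ℝ[X]} {a : ℕ} (h : P.degree < (a : WithBot ℕ)) :
    (P.comp (X + C 1)).degree < (a : WithBot ℕ) := by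
  by_cases hP : P = 0
  · rw [hP, zero_comp, degree_zero]
    exact WithBot.bot_lt_coe _
  · rw [degree_eq_natDegree hP] at h
    have h1 : (P.comp (X + C 1)).natDegree ≤ P.natDegree := by
      have := natDegree_comp_le (p := P) (q := X + C (1 : ℝ))
      rwa [natDegree_X_add_C, mul_one] at this
    refine lt_of_le_of_lt degree_le_natDegree ?_
    refine lt_of_le_of_lt ?_ h
    exact_mod_cast h1

/-- subtracting a shift lowers the degree -/
lemma degree_shift_sub {P : ℝ[X]} {a : ℕ} (h : P.degree < ((a + 1 : ℕ) : WithBot ℕ)) :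
    (P.comp (X + C 1) - P).degree < (a : WithBot ℕ) := by
  rw [degree_lt_iff_coeff_zero] at h ⊢
  intro i hi
  rw [coeff_sub]
  rcases Nat.lt_or_ge i (a + 1) with h1 | h1
  · have hia : i = a := by omega
    subst hia
    have h2 : P.natDegree ≤ i := by
      rw [natDegree_le_iff_coeff_eq_zero]
      intro j hj
      exact h j (by omega)
    have h3 : (P.comp (X + C 1)).coeff i = P.coeff i := by
      rcases Nat.lt_or_ge P.natDegree i with h4 | h4
      · rw [coeff_eq_zero_of_natDegree_lt h4, coeff_eq_zero_of_natDegree_lt]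
        have h5 := natDegree_comp_le (p := P) (q := X + C (1 : ℝ))
        rw [natDegree_X_add_C, mul_one] at h5
        omega
      · have h5 : P.natDegree = i := le_antisymm h2 h4
        have h6 : (P.comp (X + C 1)).natDegree = i := by
          rw [natDegree_comp, natDegree_X_add_C, mul_one, h5]
        have h7 := leadingCoeff_comp (p := P) (q := X + C (1 : ℝ)) (by rw [natDegree_X_add_C]; norm_num)
        rw [leadingCoeff, h6, leadingCoeff, h5, leadingCoeff_X_add_C, one_pow, mul_one] at h7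
        exact h7
    rw [h3, sub_self]
  · have h2 : (P.comp (X + C 1)).coeff i = 0 := by
      refine coeff_eq_zero_of_natDegree_lt ?_
      have h5 := natDegree_comp_le (p := P) (q := X + C (1 : ℝ))
      rw [natDegree_X_add_C, mul_one] at h5
      have h6 : P.natDegree < i := by
        rcases Nat.eq_zero_or_pos P.natDegree with h7 | h7
        · omega
        · rw [natDegree_lt_iff_degree_lt (by rintro rfl; simp at h7)]
          rw [degree_lt_iff_coeff_zero]
          intro j hj
          exact h j (by omega)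
      omega
    rw [h2, h i h1, sub_zero]

lemma pow_shift_sub (a X0 : ℕ) :
    ((X : ℝ[X]) ^ a - (X + C (X0 : ℝ)) ^ a).degree < ((a : ℕ) : WithBot ℕ) ∨ a = 0 := by
  rcases Nat.eq_zero_or_pos a with h | h
  · exact Or.inr h
  left
  have h1 : ((X : ℝ[X]) ^ a).degree = (a : WithBot ℕ) := degree_X_pow a
  have h2 : ((X + C (X0 : ℝ) : ℝ[X]) ^ a).degree = (a : WithBot ℕ) := by
    rw [degree_pow, degree_X_add_C, nsmul_one]
  have h3 := degree_sub_lt_left (p := (X : ℝ[X]) ^ a) (q := (X + C (X0 : ℝ)) ^ a) (by rw [h1, h2])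
    (pow_ne_zero _ X_ne_zero)
    (by rw [leadingCoeff_pow, leadingCoeff_X, leadingCoeff_pow, leadingCoeff_X_add_C])
  rwa [h1] at h3

lemma Rt.dl {X a e : ℕ} {R : ℕ → ℝ} (h : Rt X a (e + 1) R) : Rt (X + 1) a e (dl R) := by
  obtain ⟨P, hP, hR⟩ := h
  refine ⟨Polynomial.X ^ a * (P.comp (Polynomial.X + C 1) - P) +
    (Polynomial.X ^ a - (Polynomial.X + C (X : ℝ)) ^ a) * P, ?_, fun m hm => ?_⟩
  · have e1 : a * (X + 1) + e = (a * X + e) + a := by ring
    rw [e1]
    refine lt_of_le_of_lt (degree_add_le _ _) (max_lt ?_ ?_)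
    · rw [mul_comm]
      refine degree_mul_lt (degree_shift_sub ?_) (degree_X_pow a).le
      rw [← add_assoc] at hP
      exact hP
    · rcases pow_shift_sub a X with h1 | h1
      · by_cases ha : a = 0
        · subst ha
          rw [pow_zero, pow_zero, sub_self, zero_mul, degree_zero]
          exact WithBot.bot_lt_coe _
        have h2 : P.degree ≤ ((a * X + e : ℕ) : WithBot ℕ) := by
          rw [degree_le_iff_coeff_zero]
          rw [degree_lt_iff_coeff_zero] at hP
          intro j hj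
          have hj' : a * X + e < j := by exact_mod_cast hj
          exact hP j (by omega)
        have h3 := degree_mul_lt h1 h2
        rwa [add_comm a (a * X + e)] at h3
      · subst h1
        rw [pow_zero, pow_zero, sub_self, zero_mul, degree_zero]
        exact WithBot.bot_lt_coe _
  · have h1 := hR m hm
    have h2 := hR (m + 1) (by omega)
    rw [eval_add, eval_mul, eval_mul, eval_sub, eval_sub, eval_comp, eval_pow, eval_pow, eval_add, eval_add,
      eval_X, eval_C, eval_C]
    have h3 : ((m + 1 : ℕ) : ℝ) = (m : ℝ) + 1 := by push_cast; ring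
    rw [h3] at h2
    rw [← h2, ← h1]
    show (R (m + 1) - R m) * rf (X + 1) m ^ a = _
    have e1 : rf (X + 1) m ^ a = (m : ℝ) ^ a * rf X (m + 1) ^ a := by rw [rf_succ', mul_pow]
    have e2 : rf (X + 1) m ^ a = rf X m ^ a * ((m : ℝ) + X) ^ a := by rw [rf_succ, mul_pow]
    calc (R (m + 1) - R m) * rf (X + 1) m ^ a
        = R (m + 1) * rf (X + 1) m ^ a - R m * rf (X + 1) m ^ a := by ring
      _ = R (m + 1) * ((m : ℝ) ^ a * rf X (m + 1) ^ a) - R m * (rf X m ^ a * ((m : ℝ) + X) ^ a) := by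
          rw [← e1, ← e2]
      _ = _ := by ring

lemma Rt.sh {X a e s : ℕ} (hs : 1 ≤ s) {R : ℕ → ℝ} (h : Rt X a (e + 1) R) :
    Rt (X + 1) (a + s) e (fun m => R (m + 1) / (m : ℝ) ^ s) := by
  obtain ⟨P, hP, hR⟩ := h
  refine ⟨P.comp (Polynomial.X + C 1) * (Polynomial.X ^ a * (RF X).comp (Polynomial.X + C 1) ^ s), ?_,
    fun m hm => ?_⟩
  · have h1 : (Polynomial.X ^ a * (RF X).comp (Polynomial.X + C 1) ^ s : ℝ[X]).degree ≤
        ((a + s * X : ℕ) : WithBot ℕ) := by
      refine degree_le_of_natDegree_le ?_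
      refine natDegree_mul_le.trans ?_
      rw [natDegree_X_pow]
      refine Nat.add_le_add_left (natDegree_pow_le.trans ?_) _
      refine Nat.mul_le_mul_left _ (natDegree_comp_le.trans ?_)
      rw [natDegree_X_add_C, mul_one, RF_deg]
    refine degree_lt_of_le (degree_mul_lt (degree_comp_lt hP) h1) ?_
    nlinarith
  · have h2 := hR (m + 1) (by omega)
    have h3 : ((m + 1 : ℕ) : ℝ) = (m : ℝ) + 1 := by push_cast; ring
    have hm0 : (m : ℝ) ≠ 0 := by
      have : (0 : ℝ) < m := by exact_mod_cast hm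
      exact this.ne'
    rw [eval_mul, eval_mul, eval_comp, eval_pow, eval_pow, eval_comp, eval_add, eval_X, eval_C]
    have h4 : (RF X).eval ((m : ℝ) + 1) = rf X (m + 1) := by rw [← h3, RF_eval]
    rw [h4, ← h3, ← h2]
    have e1 : rf (X + 1) m ^ (a + s) = (m : ℝ) ^ s * ((m : ℝ) ^ a * (rf X (m + 1) ^ a * rf X (m + 1) ^ s)) := by
      rw [rf_succ', mul_pow, pow_add, pow_add]
      ring
    rw [e1]
    field_simp

lemma Rt.mono {X a e : ℕ} {R : ℕ → ℝ} (h : Rt X a e R) {b : ℕ} (hab : a ≤ b) : Rt X b e R := by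
  obtain ⟨c, rfl⟩ := Nat.exists_eq_add_of_le hab
  obtain ⟨P, hP, hR⟩ := h
  refine ⟨P * RF X ^ c, ?_, fun m hm => ?_⟩
  · have h1 : (RF X ^ c).degree ≤ ((c * X : ℕ) : WithBot ℕ) := by
      refine degree_le_of_natDegree_le (natDegree_pow_le.trans ?_)
      rw [RF_deg]
    refine degree_lt_of_le (degree_mul_lt hP h1) ?_
    nlinarith
  · rw [eval_mul, eval_pow, RF_eval, ← hR m hm, pow_add]
    ring

lemma Rt.mul {X a e δ : ℕ} {R : ℕ → ℝ} (h : Rt X (a + δ) e R) :
    Rt X a (e + δ * X) (fun m => rf X m ^ δ * R m) := by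
  obtain ⟨P, hP, hR⟩ := h
  refine ⟨P, degree_lt_of_le hP (by nlinarith), fun m hm => ?_⟩
  rw [← hR m hm, pow_add]
  ring

lemma Rt.zero {X : ℕ} {R : ℕ → ℝ} (h : Rt X 0 0 R) {m : ℕ} (hm : 1 ≤ m) : R m = 0 := by
  obtain ⟨P, hP, hR⟩ := h
  have h1 : P = 0 := by
    rw [← degree_eq_bot]
    rw [Nat.zero_mul, Nat.add_zero] at hP
    exact WithBot.lt_coe_bot.1 hP
  have h2 := hR m hm
  rwa [h1, eval_zero, pow_zero, mul_one] at h2

/-! ### the filtration -/

/-- words with levels -/
structure Lev (δ : ℕ) (G : Set (List ℕ)) (lev : List ℕ → ℕ) : Prop where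
  nil : ([] : List ℕ) ∈ G
  nil0 : lev [] = 0
  tail : ∀ s l, s :: l ∈ G → l ∈ G
  pos : ∀ s l, s :: l ∈ G → 1 ≤ s
  step : ∀ s l, s :: l ∈ G → δ * lev l + s ≤ δ * lev (s :: l)

/-- the combinations of level at most `c` -/
def TT (δ : ℕ) (G : Set (List ℕ)) (lev : List ℕ → ℕ) (X c e : ℕ) : Submodule ℝ (ℕ → ℝ) :=
  Submodule.span ℝ {F | ∃ w R, w ∈ G ∧ lev w ≤ c ∧ Rt X (δ * (c - lev w)) e R ∧
    ∀ m, 1 ≤ m → F m = R m * hr w m}

variable {δ : ℕ} {G : Set (List ℕ)} {lev : List ℕ → ℕ}

lemma hr_succ (s : ℕ) (l : List ℕ) {m : ℕ} (hm : 1 ≤ m) :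
    hr (s :: l) (m + 1) = hr (s :: l) m + hr l m / (m : ℝ) ^ s := by
  rw [hr_cons, hr_cons, Finset.sum_Ico_succ_top hm]

lemma Lev.le (h : Lev δ G lev) (hδ : 1 ≤ δ) {s : ℕ} {l : List ℕ} (hw : s :: l ∈ G) : lev l ≤ lev (s :: l) := by
  have h1 := h.step s l hw
  exact Nat.le_of_mul_le_mul_left ((Nat.le_add_right _ _).trans h1) hδ

lemma TT.dl (h : Lev δ G lev) (hδ : 1 ≤ δ) {X c e : ℕ} {F : ℕ → ℝ} (hF : F ∈ TT δ G lev X c (e + 1)) :
    dl F ∈ TT δ G lev (X + 1) c e := by
  unfold TT at hF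
  induction hF using Submodule.span_induction with
  | mem F hF =>
    obtain ⟨w, R, hw, hc, hR, hFR⟩ := hF
    cases w with
    | nil =>
      refine Submodule.subset_span ⟨[], OL.dl R, hw, hc, hR.dl, fun m hm => ?_⟩
      show F (m + 1) - F m = (R (m + 1) - R m) * _
      rw [hFR m hm, hFR (m + 1) (by omega), hr_nil, hr_nil]
      ring
    | cons s l =>
      have h1 : (fun m => OL.dl R m * hr (s :: l) m) ∈ TT δ G lev (X + 1) c e :=
        Submodule.subset_span ⟨s :: l, OL.dl R, hw, hc, hR.dl, fun m _ => rfl⟩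
      have h2 : (fun m => OL.dl F m - OL.dl R m * hr (s :: l) m) ∈ TT δ G lev (X + 1) c e := by
        have hle := h.le hδ hw
        have hst := h.step s l hw
        refine Submodule.subset_span ⟨l, _, h.tail s l hw, hle.trans hc,
          (hR.sh (h.pos s l hw)).mono ?_, fun m hm => ?_⟩
        · have e1 : δ * (c - lev (s :: l)) + δ * lev (s :: l) = δ * c := by
            rw [← Nat.mul_add, Nat.sub_add_cancel hc]
          have e2 : δ * (c - lev l) + δ * lev l = δ * c := by
            rw [← Nat.mul_add, Nat.sub_add_cancel (hle.trans hc)]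
          omega
        · show F (m + 1) - F m - (R (m + 1) - R m) * hr (s :: l) m = _
          rw [hFR m hm, hFR (m + 1) (by omega), hr_succ s l hm]
          ring
      have h3 := Submodule.add_mem _ h1 h2
      convert h3 using 1
      funext m
      simp
  | zero =>
    have : OL.dl 0 = 0 := by
      funext m
      simp [OL.dl]
    rw [this]
    exact Submodule.zero_mem _
  | add x y _ _ hx hy =>
    have : OL.dl (x + y) = OL.dl x + OL.dl y := by
      funext m
      simp only [OL.dl, Pi.add_apply]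
      ring
    rw [this]
    exact Submodule.add_mem _ hx hy
  | smul r x _ hx =>
    have : OL.dl (r • x) = r • OL.dl x := by
      funext m
      simp only [OL.dl, Pi.smul_apply, smul_eq_mul]
      ring
    rw [this]
    exact Submodule.smul_mem _ _ hx

lemma TT.dls (h : Lev δ G lev) (hδ : 1 ≤ δ) {c : ℕ} : ∀ (e X : ℕ) (F : ℕ → ℝ), F ∈ TT δ G lev X c e →
    OL.dl^[e] F ∈ TT δ G lev (X + e) c 0 := by
  intro e
  induction e with
  | zero => intro X F hF; exact hF
  | succ e ih =>
    intro X F hF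
    rw [Function.iterate_succ_apply]
    have h1 := ih (X + 1) (OL.dl F) (TT.dl h hδ hF)
    have e1 : X + 1 + e = X + (e + 1) := by ring
    rwa [e1] at h1

lemma TT.mul (h : Lev δ G lev) {X c : ℕ} {F : ℕ → ℝ} (hF : F ∈ TT δ G lev X (c + 1) 0) :
    (fun m => rf X m ^ δ * F m) ∈ TT δ G lev X c (δ * X) := by
  unfold TT at hF
  induction hF using Submodule.span_induction with
  | mem F hF =>
    obtain ⟨w, R, hw, hc, hR, hFR⟩ := hF
    rcases Nat.lt_or_ge c (lev w) with h1 | h1
    · have h2 : c + 1 - lev w = 0 := by omega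
      rw [h2, Nat.mul_zero] at hR
      refine Submodule.subset_span ⟨[], fun _ => 0, h.nil, ?_, ⟨0, ?_, fun m _ => ?_⟩, fun m hm => ?_⟩
      · rw [h.nil0]
        exact Nat.zero_le _
      · rw [degree_zero]
        exact WithBot.bot_lt_coe _
      · rw [eval_zero, zero_mul]
      · show rf X m ^ δ * F m = 0 * hr [] m
        rw [hFR m hm, hR.zero hm]
        ring
    · refine Submodule.subset_span ⟨w, fun m => rf X m ^ δ * R m, hw, h1, ?_, fun m hm => ?_⟩
      · have e1 : δ * (c + 1 - lev w) = δ * (c - lev w) + δ := by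
          rw [Nat.succ_sub h1, Nat.mul_succ]
        rw [e1] at hR
        have h2 := hR.mul
        rwa [Nat.zero_add] at h2
      · show rf X m ^ δ * F m = rf X m ^ δ * R m * hr w m
        rw [hFR m hm]
        ring
  | zero =>
    have : (fun m => rf X m ^ δ * (0 : ℕ → ℝ) m) = 0 := by
      funext m
      simp
    rw [this]
    exact Submodule.zero_mem _
  | add x y _ _ hx hy =>
    have : (fun m => rf X m ^ δ * (x + y) m) = (fun m => rf X m ^ δ * x m) + fun m => rf X m ^ δ * y m := by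
      funext m
      simp only [Pi.add_apply]
      ring
    rw [this]
    exact Submodule.add_mem _ hx hy
  | smul r x _ hx =>
    have : (fun m => rf X m ^ δ * (r • x) m) = r • fun m => rf X m ^ δ * x m := by
      funext m
      simp only [Pi.smul_apply, smul_eq_mul]
      ring
    rw [this]
    exact Submodule.smul_mem _ _ hx

lemma TT.poly (h : Lev δ G lev) {X e : ℕ} {F : ℕ → ℝ} (hF : F ∈ TT δ G lev X 0 e) :
    ∃ P : ℝ[X], P.degree < (e : WithBot ℕ) ∧ ∀ m : ℕ, 1 ≤ m → F m = P.eval (m : ℝ) := by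
  unfold TT at hF
  induction hF using Submodule.span_induction with
  | mem F hF =>
    obtain ⟨w, R, hw, hc, ⟨P, hP, hR⟩, hFR⟩ := hF
    cases w with
    | nil =>
      refine ⟨P, ?_, fun m hm => ?_⟩
      · rw [h.nil0] at hP
        simpa using hP
      · have h1 := hR m hm
        rw [h.nil0, Nat.sub_zero, Nat.mul_zero, pow_zero, mul_one] at h1
        rw [hFR m hm, h1, hr_nil, mul_one]
    | cons s l =>
      have h1 := h.step s l hw
      have h2 := h.pos s l hw
      have h3 : lev (s :: l) = 0 := Nat.le_zero.1 hc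
      rw [h3, Nat.mul_zero] at h1
      omega
  | zero => exact ⟨0, by rw [degree_zero]; exact WithBot.bot_lt_coe _, fun m _ => by simp⟩
  | add x y _ _ hx hy =>
    obtain ⟨P, hP, hx⟩ := hx
    obtain ⟨Q, hQ, hy⟩ := hy
    exact ⟨P + Q, lt_of_le_of_lt (degree_add_le _ _) (max_lt hP hQ), fun m hm => by
      rw [Pi.add_apply, hx m hm, hy m hm, eval_add]⟩
  | smul r x _ hx =>
    obtain ⟨P, hP, hx⟩ := hx
    exact ⟨r • P, lt_of_le_of_lt (degree_smul_le _ _) hP, fun m hm => by
      rw [Pi.smul_apply, hx m hm, eval_smul]⟩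

lemma dls_zero : ∀ (e : ℕ) (F : ℕ → ℝ) (m : ℕ), (∀ j ≤ e, F (m + j) = 0) → dl^[e] F m = 0 := by
  intro e
  induction e with
  | zero => intro F m h; exact h 0 le_rfl
  | succ e ih =>
    intro F m h
    rw [Function.iterate_succ_apply]
    refine ih _ m fun j hj => ?_
    show F (m + j + 1) - F (m + j) = 0
    rw [h j (by omega), add_assoc, h (j + 1) (by omega), sub_zero]

lemma dls_back : ∀ (e : ℕ) (F : ℕ → ℝ), (∀ m, 1 ≤ m → dl^[e] F m = 0) → (∀ m, 1 ≤ m → m ≤ e → F m = 0) →
    ∀ m, 1 ≤ m → F m = 0 := by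
  intro e
  induction e with
  | zero => intro F h _ m hm; exact h m hm
  | succ e ih =>
    intro F h h0 m hm
    have h1 := ih (dl F) (fun m hm => by
      have := h m hm
      rwa [Function.iterate_succ_apply] at this) (fun m hm hme => by
      show F (m + 1) - F m = 0
      rw [h0 (m + 1) (by omega) (by omega), h0 m hm (by omega), sub_zero])
    induction m, hm using Nat.le_induction with
    | base => exact h0 1 le_rfl (by omega)
    | succ m hm ihm =>
      have h2 : F (m + 1) - F m = 0 := h1 m hm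
      linarith

/-- **the zero estimate** -/
theorem zero_est (h : Lev δ G lev) (hδ : 1 ≤ δ) : ∀ (c X e : ℕ) (F : ℕ → ℝ), F ∈ TT δ G lev X c e →
    (∀ m, 1 ≤ m → m + X ≤ (X + e) * (1 + δ) ^ c → F m = 0) → ∀ m, 1 ≤ m → F m = 0 := by
  intro c
  induction c with
  | zero =>
    intro X e F hF h0
    obtain ⟨P, hP, hFP⟩ := TT.poly h hF
    have h1 : P = 0 := by
      refine Polynomial.eq_zero_of_degree_lt_of_eval_finset_eq_zero
        ((Finset.Icc 1 e).map ⟨fun n : ℕ => (n : ℝ), Nat.cast_injective⟩) ?_ ?_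
      · rw [Finset.card_map, Nat.card_Icc, Nat.add_sub_cancel]
        exact hP
      · intro x hx
        rw [Finset.mem_map] at hx
        obtain ⟨m, hm, rfl⟩ := hx
        rw [Finset.mem_Icc] at hm
        show P.eval (m : ℝ) = 0
        rw [← hFP m hm.1]
        refine h0 m hm.1 ?_
        rw [pow_zero, mul_one]
        omega
    intro m hm
    rw [hFP m hm, h1, eval_zero]
  | succ c ih =>
    intro X e F hF h0
    have h1 := TT.dls h hδ e X F hF
    have h2 := TT.mul h h1
    have h3 := ih (X + e) (δ * (X + e)) _ h2 (fun m hm hm2 => by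
      have e1 : (X + e + δ * (X + e)) * (1 + δ) ^ c = (X + e) * (1 + δ) ^ (c + 1) := by
        rw [pow_succ]
        ring
      rw [e1] at hm2
      show rf (X + e) m ^ δ * dl^[e] F m = 0
      rw [dls_zero e F m (fun j hj => h0 (m + j) (by omega) (by omega)), mul_zero])
    refine dls_back e F (fun m hm => ?_) (fun m hm hme => h0 m hm ?_)
    · have h4 := h3 m hm
      have h5 : rf (X + e) m ^ δ ≠ 0 := (pow_pos (rf_pos (X + e) hm) _).ne'
      exact (mul_eq_zero.1 h4).resolve_left h5
    · have h6 : X + e ≤ (X + e) * (1 + δ) ^ (c + 1) := Nat.le_mul_of_pos_right _ (by positivity)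
      omega

end Pool.Agent.NH24.OL
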